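import Pool.Agent.NPC.Defs

set_option autoImplicit false

/-!
# Bounded bitolerance digraphs and the classes defined by restricted representations
-/

namespace Pool.Agent.W983.Tol

/-- A finite digraph on the vertices `0, …, n-1`, given by its `n × n` adjacency matrix. -/
abbrev Dig : Type := List (List Bool)

/-- The entry of the adjacency matrix in row `u` and column `v`. -/
def Dig.entry (D : Dig) (u v : ℕ) : Bool := (List.getD D u []).getD v false

/-- The matrix is square. -/
def Dig.Square (D : Dig) : Prop := ∀ row ∈ (D : List (List Bool)), row.length = List.length D

/-- A bounded bitolerance representation of the digraph with the arcs `arc`: the vertex `v` gets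
the interval `[L v, R v]` and the points `p v`, `q v` of this interval, and `(x, y)` is an arc if
and only if `L x ≤ q y` and `p y ≤ R x`. -/
structure IsRep {V : Type} (arc : V → V → Prop) (L R p q : V → ℝ) : Prop where
  p_mem : ∀ v, p v ∈ Set.Icc (L v) (R v)
  q_mem : ∀ v, q v ∈ Set.Icc (L v) (R v)
  arc_iff : ∀ x y, arc x y ↔ L x ≤ q y ∧ p y ≤ R x

/-- The three options for the interval lengths. -/
inductive Len : Type
  | unit | proper | arbitrary

/-- The three options for the tolerant points. -/
inductive Core : Type
  | point | totallyBounded | arbitrary

/-- The two options for the tolerances. -/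
inductive Tolerance : Type
  | tolerance | bitolerance

/-- Unit: all intervals have the same length. Proper: no interval is properly contained in
another one. -/
def Len.Holds {V : Type} (L R : V → ℝ) : Len → Prop
  | Len.unit => ∀ x y, R x - L x = R y - L y
  | Len.proper => ∀ x y, ¬ Set.Icc (L x) (R x) ⊂ Set.Icc (L y) (R y)
  | Len.arbitrary => True

/-- Point-core: the two points are equal. Totally bounded: `p v ≤ q v`. -/
def Core.Holds {V : Type} (p q : V → ℝ) : Core → Prop
  | Core.point => ∀ v, p v = q v
  | Core.totallyBounded => ∀ v, p v ≤ q v
  | Core.arbitrary => True

/-- Tolerance: the left tolerance `p v - L v` is equal to the right tolerance `R v - q v`. -/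
def Tolerance.Holds {V : Type} (L R p q : V → ℝ) : Tolerance → Prop
  | Tolerance.tolerance => ∀ v, p v - L v = R v - q v
  | Tolerance.bitolerance => True

/-- The digraph `D` has a bounded bitolerance representation which satisfies the three
restrictions. -/
def InClass (a : Len) (b : Core) (c : Tolerance) (D : Dig) : Prop :=
  D.Square ∧ ∃ L R p q : Fin (List.length D) → ℝ,
    IsRep (fun x y : Fin (List.length D) => D.entry x y = true) L R p q ∧ a.Holds L R ∧ b.Holds p q ∧ c.Holds L R p q

end Pool.Agent.W983.Tol
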