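import Mathlib
import Pool.Agent.W983.Tol.Defs

set_option autoImplicit false

/-!
# Restricted representations: restriction to fewer vertices, reversal of the arcs
-/

namespace Pool.Agent.W983.Tol

/-- There is a representation which satisfies the three restrictions. -/
def Rep (V : Type) (arc : V → V → Prop) (a : Len) (b : Core) (c : Tolerance) : Prop :=
  ∃ L R p q : V → ℝ, IsRep arc L R p q ∧ a.Holds L R ∧ b.Holds p q ∧ c.Holds L R p q

theorem Rep.comap {V W : Type} {arc : V → V → Prop} {a : Len} {b : Core} {c : Tolerance}
    (h : Rep V arc a b c) (f : W → V) : Rep W (fun x y => arc (f x) (f y)) a b c := by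
  obtain ⟨L, R, p, q, h, ha, hb, hc⟩ := h
  refine ⟨fun x => L (f x), fun x => R (f x), fun x => p (f x), fun x => q (f x),
    ⟨fun v => h.p_mem _, fun v => h.q_mem _, fun x y => h.arc_iff _ _⟩, ?_, ?_, ?_⟩
  · cases a
    · exact fun x y => ha _ _
    · exact fun x y => ha _ _
    · trivial
  · cases b
    · exact fun x => hb _
    · exact fun x => hb _
    · trivial
  · cases c
    · exact fun x => hc _
    · trivial

theorem Rep.congr {V : Type} {arc arc' : V → V → Prop} {a : Len} {b : Core} {c : Tolerance}
    (h : Rep V arc a b c) (he : ∀ x y, arc' x y ↔ arc x y) : Rep V arc' a b c := by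
  obtain ⟨L, R, p, q, h, h'⟩ := h
  exact ⟨L, R, p, q, ⟨h.p_mem, h.q_mem, fun x y => (he x y).trans (h.arc_iff x y)⟩, h'⟩

/-- The restriction of the lengths after reversal. -/
def Core.dual : Core → Len
  | Core.point => Len.unit
  | Core.totallyBounded => Len.arbitrary
  | Core.arbitrary => Len.arbitrary

/-- Reversal of the arcs, for tolerance representations. -/
theorem Rep.reverse {V : Type} [Finite V] {arc : V → V → Prop} {a : Len} {b : Core}
    (h : Rep V arc a b Tolerance.tolerance) :
    Rep V (fun x y => arc y x) b.dual Core.arbitrary Tolerance.tolerance := by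
  obtain ⟨L, R, p, q, h, ha, hb, hc⟩ := h
  have hex : ∃ s : ℝ, ∀ v, R v - L v ≤ 2 * s := by
    obtain ⟨M, hM⟩ := (Set.finite_range (fun v => R v - L v)).bddAbove
    refine ⟨M / 2, fun v => ?_⟩
    have : R v - L v ≤ M := hM (Set.mem_range_self v)
    linarith
  obtain ⟨s, hs⟩ := hex
  have hp := fun v => Set.mem_Icc.1 (h.p_mem v)
  have hq := fun v => Set.mem_Icc.1 (h.q_mem v)
  refine ⟨fun v => p v - s, fun v => q v + s, fun v => L v + s, fun v => R v - s,
    ⟨fun v => ?_, fun v => ?_, fun x y => ?_⟩, ?_, trivial, fun v => ?_⟩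
  · have := hs v
    exact ⟨by linarith [(hp v).1, (hp v).2, (hq v).1, (hq v).2],
      by linarith [(hp v).1, (hp v).2, (hq v).1, (hq v).2]⟩
  · have := hs v
    exact ⟨by linarith [(hp v).1, (hp v).2, (hq v).1, (hq v).2],
      by linarith [(hp v).1, (hp v).2, (hq v).1, (hq v).2]⟩
  · rw [h.arc_iff y x]
    constructor
    · rintro ⟨h1, h2⟩
      exact ⟨by linarith, by linarith⟩
    · rintro ⟨h1, h2⟩
      exact ⟨by linarith, by linarith⟩
  · cases b
    · intro x y
      have h1 : p x = q x := hb x
      have h2 : p y = q y := hb y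
      simp only [h1, h2]
      ring
    · trivial
    · trivial
  · have : p v - L v = R v - q v := hc v
    simp only
    linarith

/-- The adjacency matrix of a relation on a list. -/
def mat {X : Type} (l : List X) (A : X → X → Bool) : Dig :=
  l.map (fun u => l.map (fun v => A u v))

theorem mat_length {X : Type} (l : List X) (A : X → X → Bool) :
    List.length (mat l A) = l.length := by
  simp [mat]

theorem mat_square {X : Type} (l : List X) (A : X → X → Bool) : (mat l A).Square := by
  intro row hrow
  obtain ⟨u, hu, rfl⟩ := List.mem_map.1 hrow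
  simp [mat]

theorem mat_entry {X : Type} (l : List X) (A : X → X → Bool) {i j : ℕ} (hi : i < l.length)
    (hj : j < l.length) : (mat l A).entry i j = A l[i] l[j] := by
  simp [mat, Dig.entry, List.getD_eq_getElem?_getD, hi, hj]

theorem inClass_mat {X : Type} [DecidableEq X] (l : List X) (A : X → X → Bool) (a : Len)
    (b : Core) (c : Tolerance) :
    InClass a b c (mat l A) ↔ Rep {x // x ∈ l} (fun x y => A x.1 y.1 = true) a b c := by
  constructor
  · rintro ⟨_, h⟩
    have h' : Rep (Fin (List.length (mat l A)))
      (fun x y : Fin (List.length (mat l A)) => (mat l A).entry x y = true) a b c := h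
    have hlt : ∀ x : {x // x ∈ l}, List.idxOf x.1 l < List.length (mat l A) := fun x => by
      rw [mat_length]
      exact List.idxOf_lt_length_of_mem x.2
    refine (h'.comap (fun x : {x // x ∈ l} => ⟨List.idxOf x.1 l, hlt x⟩)).congr (fun x y => ?_)
    have h1 := List.idxOf_lt_length_of_mem x.2
    have h2 := List.idxOf_lt_length_of_mem y.2
    rw [mat_entry l A h1 h2, List.getElem_idxOf h1, List.getElem_idxOf h2]
  · intro h
    refine ⟨mat_square l A, ?_⟩
    have hlt : ∀ i : Fin (List.length (mat l A)), i.1 < l.length := fun i => by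
      rw [← mat_length l A]
      exact i.2
    have h' := (h.comap (fun i : Fin (List.length (mat l A)) =>
      (⟨l[i.1]'(hlt i), List.getElem_mem _⟩ : {x // x ∈ l}))).congr
        (arc' := fun x y : Fin (List.length (mat l A)) => (mat l A).entry x y = true)
        (fun x y => by rw [mat_entry l A (hlt x) (hlt y)])
    exact h'

end Pool.Agent.W983.Tol
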