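import Mathlib
import Pool.Agent.W983.Tol.Defs

set_option autoImplicit false

/-!
# The ruler digraphs: what a representation looks like
-/

namespace Pool.Agent.W983.Tol

/-- The names of the blocks. -/
abbrev Tag : Type := ℕ × ℕ × ℕ

/-- The vertices: kind, name of the block, position. -/
abbrev VD : Type := ℕ × Tag × ℕ

/-- The arcs. -/
def Adj (ρ : Tag → ℕ → ℕ × ℕ) (u v : VD) : Prop :=
  (u.1 = 0 ∧ v.1 = 0 ∧ v.2.2 = u.2.2) ∨
  (u.1 = 1 ∧ v.1 = 1 ∧ v.2.2 = u.2.2) ∨
  (u.1 = 2 ∧ ((v.1 = 0 ∧ v.2.2 ≤ u.2.2) ∨ v.1 = 2 ∨ 4 ≤ v.1)) ∨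
  (u.1 = 3 ∧ ((v.1 = 1 ∧ v.2.2 ≤ u.2.2) ∨ 3 ≤ v.1)) ∨
  (u.1 = 4 ∧ v.1 = 4) ∨
  (u.1 = 5 ∧ ((v.1 = 0 ∧ v.2.2 < (ρ u.2.1 u.2.2).1) ∨ (v.1 = 1 ∧ v.2.2 < (ρ u.2.1 u.2.2).2) ∨
    2 ≤ v.1)) ∨
  (u.1 = 6 ∧ (v.1 = 5 ∨ v.1 = 6) ∧ v.2.1 = u.2.1 ∧ v.2.2 = u.2.2) ∨
  (u.1 = 7 ∧ v.2.1 = u.2.1 ∧ (((v.1 = 5 ∨ v.1 = 6) ∧ (v.2.2 = u.2.2 ∨ v.2.2 = u.2.2 + 1)) ∨
    (v.1 = 7 ∧ v.2.2 = u.2.2)))

instance (ρ : Tag → ℕ → ℕ × ℕ) (u v : VD) : Decidable (Adj ρ u v) := by
  unfold Adj
  infer_instance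

/-- The list of the vertices. -/
def verts (N : ℕ) (tags : List Tag) (len : Tag → ℕ) : List VD :=
  (List.range N).flatMap (fun i => [(0, (0, 0, 0), i), (1, (0, 0, 0), i), (2, (0, 0, 0), i),
    (3, (0, 0, 0), i)]) ++ (4, (0, 0, 0), 0) ::
    tags.flatMap (fun t => (List.range (len t)).flatMap (fun l => [(5, t, l), (6, t, l),
      (7, t, l)]))

theorem mem_verts {N : ℕ} {tags : List Tag} {len : Tag → ℕ} {v : VD} :
    v ∈ verts N tags len ↔ (v.1 < 4 ∧ v.2.1 = (0, 0, 0) ∧ v.2.2 < N) ∨ v = (4, (0, 0, 0), 0) ∨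
      (5 ≤ v.1 ∧ v.1 ≤ 7 ∧ v.2.1 ∈ tags ∧ v.2.2 < len v.2.1) := by
  obtain ⟨k, t, i⟩ := v
  simp only [verts, List.mem_append, List.mem_flatMap, List.mem_range, List.mem_cons,
    List.not_mem_nil, or_false, Prod.mk.injEq]
  constructor
  · rintro (⟨j, hj, h⟩ | h | ⟨t', ht', l, hl, h⟩)
    · left
      rcases h with h | h | h | h <;> obtain ⟨rfl, rfl, rfl⟩ := h <;> simp [hj]
    · right; left
      exact h
    · right; right
      rcases h with h | h | h <;> obtain ⟨rfl, rfl, rfl⟩ := h <;> simp [ht', hl]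
  · rintro (⟨h1, h2, h3⟩ | h | ⟨h1, h2, h3, h4⟩)
    · left
      refine ⟨i, h3, ?_⟩
      subst h2
      have : k = 0 ∨ k = 1 ∨ k = 2 ∨ k = 3 := by omega
      simpa using this
    · right; left
      exact h
    · right; right
      refine ⟨t, h3, i, h4, ?_⟩
      have : k = 5 ∨ k = 6 ∨ k = 7 := by omega
      simpa using this

section Sound

variable {N : ℕ} {tags : List Tag} {len : Tag → ℕ} {ρ : Tag → ℕ → ℕ × ℕ}
  {L R p q : VD → ℝ}

/-- The vertices that are linearly ordered in every representation. -/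
def Ord (N : ℕ) (tags : List Tag) (len : Tag → ℕ) (u : VD) : Prop :=
  u ∈ verts N tags len ∧ (u.1 = 0 ∨ u.1 = 1 ∨ u.1 = 4 ∨ u.1 = 5)

/-- A vertex which has an arc to `u` and to no other ordered vertex. -/
def seer (u : VD) : VD := if u.1 = 5 then (6, u.2) else u

theorem seer_mem {u : VD} (h : Ord N tags len u) : seer u ∈ verts N tags len := by
  unfold seer
  split_ifs with h5
  · have := h.1
    rw [mem_verts] at this ⊢
    rcases this with h1 | h1 | h1
    · omega
    · rw [h1] at h5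
      simp at h5
    · exact Or.inr (Or.inr ⟨by norm_num, by norm_num, h1.2.2.1, h1.2.2.2⟩)
  · exact h.1

theorem seer_adj {u : VD} (h : Ord N tags len u) : Adj ρ (seer u) u := by
  unfold seer
  split_ifs with h5
  · unfold Adj
    simp [h5]
  · have := h.2
    unfold Adj
    rcases this with h1 | h1 | h1 | h1 <;> simp_all

theorem seer_eq {u v : VD} (h : Ord N tags len u) (h' : Ord N tags len v)
    (ha : Adj ρ (seer u) v) : v = u := by
  obtain ⟨k, t, i⟩ := u
  obtain ⟨k', t', i'⟩ := v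
  obtain ⟨h1, h2⟩ := h
  obtain ⟨h1', h2'⟩ := h'
  rw [mem_verts] at h1 h1'
  simp only [Prod.mk.injEq] at h1 h1' h2 h2' ⊢
  unfold seer Adj at ha
  rcases h2 with h2 | h2 | h2 | h2 <;> subst h2 <;> simp at ha h1 ⊢
  · obtain ⟨rfl, rfl⟩ := ha
    simp at h1'
    exact ⟨rfl, h1'.1.trans h1.1.symm, rfl⟩
  · obtain ⟨rfl, rfl⟩ := ha
    simp at h1'
    exact ⟨rfl, h1'.1.trans h1.1.symm, rfl⟩
  · subst ha
    simp at h1'
    exact ⟨rfl, h1'.1.trans h1.1.symm, h1'.2.trans h1.2.symm⟩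
  · obtain ⟨h3, h4, h5⟩ := ha
    refine ⟨?_, h4, h5⟩
    omega

/-- `u` is before `v`. -/
def Bef (p q : VD → ℝ) (u v : VD) : Prop := p u < p v ∧ q u < q v

theorem Bef.trans {u v w : VD} (h : Bef p q u v) (h' : Bef p q v w) : Bef p q u w :=
  ⟨h.1.trans h'.1, h.2.trans h'.2⟩

theorem Bef.asymm {u v : VD} (h : Bef p q u v) (h' : Bef p q v u) : False :=
  absurd (h.1.trans h'.1) (lt_irrefl _)

variable (H : ∀ u ∈ verts N tags len, ∀ v ∈ verts N tags len,
  (Adj ρ u v ↔ L u ≤ q v ∧ p v ≤ R u))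

include H

theorem total {u v : VD} (hu : Ord N tags len u) (hv : Ord N tags len v) (hne : u ≠ v) :
    Bef p q u v ∨ Bef p q v u := by
  have h1 := (H _ (seer_mem hu) _ hu.1).1 (seer_adj hu)
  have h2 := (H _ (seer_mem hv) _ hv.1).1 (seer_adj hv)
  have h3 : ¬ (L (seer u) ≤ q v ∧ p v ≤ R (seer u)) := fun h =>
    hne (seer_eq hu hv ((H _ (seer_mem hu) _ hv.1).2 h)).symm
  have h4 : ¬ (L (seer v) ≤ q u ∧ p u ≤ R (seer v)) := fun h =>
    hne (seer_eq hv hu ((H _ (seer_mem hv) _ hu.1).2 h))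
  unfold Bef
  rcases lt_or_ge (R (seer u)) (p v) with h5 | h5
  · left
    have h6 : p u < p v := h1.2.trans_lt h5
    refine ⟨h6, ?_⟩
    by_contra h7
    exact h4 ⟨h2.1.trans (not_lt.1 h7), h6.le.trans h2.2⟩
  · right
    have h6 : q v < L (seer u) := by
      by_contra h7
      exact h3 ⟨not_lt.1 h7, h5⟩
    have h7 : q v < q u := h6.trans_le h1.1
    refine ⟨?_, h7⟩
    by_contra h8
    exact h4 ⟨h2.1.trans h7.le, (not_lt.1 h8).trans h2.2⟩

theorem between {w u v t : VD} (hw : w ∈ verts N tags len) (hu : u ∈ verts N tags len)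
    (hv : v ∈ verts N tags len) (ht : t ∈ verts N tags len) (h1 : Adj ρ w u) (h2 : Adj ρ w v)
    (h3 : Bef p q u t) (h4 : Bef p q t v) : Adj ρ w t := by
  have g1 := (H _ hw _ hu).1 h1
  have g2 := (H _ hw _ hv).1 h2
  exact (H _ hw _ ht).2 ⟨g1.1.trans h3.2.le, h4.1.le.trans g2.2⟩

/-- The vertices of kind `k` at position `i`. -/
def mk (k i : ℕ) : VD := (k, (0, 0, 0), i)

omit H in
theorem mk_mem {k i : ℕ} (hk : k < 4) (hi : i < N) : mk k i ∈ verts N tags len :=
  mem_verts.2 (Or.inl ⟨hk, rfl, hi⟩)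

omit H in
theorem mk4_mem : mk 4 0 ∈ verts N tags len := mem_verts.2 (Or.inr (Or.inl rfl))

omit H in
theorem x_mem {k l : ℕ} {t : Tag} (hk : 5 ≤ k) (hk' : k ≤ 7) (ht : t ∈ tags) (hl : l < len t) :
    ((k, t, l) : VD) ∈ verts N tags len :=
  mem_verts.2 (Or.inr (Or.inr ⟨hk, hk', ht, hl⟩))

/-- The case that the left markers are on the left. -/
theorem sound_core (hN : 0 < N) (htol : ∀ u ∈ verts N tags len, p u + q u = L u + R u)
    (h0 : Bef p q (mk 0 0) (mk 4 0)) :
    (∀ τ ∈ tags, (∀ l, l + 1 < len τ → p (5, τ, l) + q (5, τ, l) <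
        p (5, τ, l + 1) + q (5, τ, l + 1)) ∨
      (∀ l, l + 1 < len τ → p (5, τ, l + 1) + q (5, τ, l + 1) < p (5, τ, l) + q (5, τ, l))) ∧
    ∀ τ ∈ tags, ∀ l < len τ, ∀ i j, ρ τ l = (i + 1, j + 1) → i + 1 < N → j + 1 < N →
      p (mk 1 j) + q (mk 0 (i + 1)) < p (5, τ, l) + q (5, τ, l) ∧
      p (5, τ, l) + q (5, τ, l) < p (mk 1 (j + 1)) + q (mk 0 i) := by
  have oa : ∀ {i}, i < N → Ord N tags len (mk 0 i) := fun h => ⟨mk_mem (by norm_num) h, Or.inl rfl⟩
  have oz : ∀ {i}, i < N → Ord N tags len (mk 1 i) :=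
    fun h => ⟨mk_mem (by norm_num) h, Or.inr (Or.inl rfl)⟩
  have oo : Ord N tags len (mk 4 0) := ⟨mk4_mem, Or.inr (Or.inr (Or.inl rfl))⟩
  have ox : ∀ {τ l}, τ ∈ tags → l < len τ → Ord N tags len ((5, τ, l) : VD) :=
    fun h h' => ⟨x_mem (by norm_num) (by norm_num) h h', Or.inr (Or.inr (Or.inr rfl))⟩
  have w2 : ∀ {i}, i < N → mk 2 i ∈ verts N tags len := fun h => mk_mem (by norm_num) h
  have w3 : ∀ {i}, i < N → mk 3 i ∈ verts N tags len := fun h => mk_mem (by norm_num) h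
  -- the right markers are on the right
  have hz : ∀ {j}, j < N → Bef p q (mk 4 0) (mk 1 j) := by
    intro j hj
    rcases total H oo (oz hj) (by simp [mk]) with h | h
    · exact h
    exfalso
    rcases total H (oa hN) (oz hj) (by simp [mk]) with h' | h'
    · have := between H (w2 hN) (oa hN).1 oo.1 (oz hj).1 (by simp [Adj, mk]) (by simp [Adj, mk])
        h' h
      simp [Adj, mk] at this
    · have := between H (w3 hj) (oz hj).1 oo.1 (oa hN).1 (by simp [Adj, mk]) (by simp [Adj, mk])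
        h' h0
      simp [Adj, mk] at this
  have ha : ∀ {i}, i < N → Bef p q (mk 0 i) (mk 4 0) := by
    intro i hi
    rcases total H (oa hi) oo (by simp [mk]) with h | h
    · exact h
    exfalso
    rcases total H (oa hi) (oz hN) (by simp [mk]) with h' | h'
    · have := between H (w3 hN) oo.1 (oz hN).1 (oa hi).1 (by simp [Adj, mk]) (by simp [Adj, mk])
        h h'
      simp [Adj, mk] at this
    · have := between H (w2 hi) oo.1 (oa hi).1 (oz hN).1 (by simp [Adj, mk]) (by simp [Adj, mk])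
        (hz hN) h'
      simp [Adj, mk] at this
  refine ⟨?_, ?_⟩
  · intro τ hτ
    -- `x (l+1)` is between `x l` and `x (l+2)`
    have key : ∀ l, l + 2 < len τ →
        (Bef p q (5, τ, l) (5, τ, l + 1) ∧ Bef p q (5, τ, l + 1) (5, τ, l + 2)) ∨
        (Bef p q (5, τ, l + 2) (5, τ, l + 1) ∧ Bef p q (5, τ, l + 1) (5, τ, l)) := by
      intro l hl
      have o0 : Ord N tags len ((5, τ, l) : VD) := ox hτ (by omega)
      have o1 : Ord N tags len ((5, τ, l + 1) : VD) := ox hτ (by omega)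
      have o2 : Ord N tags len ((5, τ, l + 2) : VD) := ox hτ (by omega)
      have e0 : ((7, τ, l) : VD) ∈ verts N tags len :=
        x_mem (by norm_num) (by norm_num) hτ (by omega)
      have e1 : ((7, τ, l + 1) : VD) ∈ verts N tags len :=
        x_mem (by norm_num) (by norm_num) hτ (by omega)
      have n1 : ¬ (Bef p q (5, τ, l) (5, τ, l + 2) ∧ Bef p q (5, τ, l + 2) (5, τ, l + 1)) := by
        rintro ⟨h, h'⟩
        have := between H e0 o0.1 o1.1 o2.1 (by simp [Adj]) (by simp [Adj]) h h'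
        simp [Adj] at this
      have n2 : ¬ (Bef p q (5, τ, l + 1) (5, τ, l + 2) ∧ Bef p q (5, τ, l + 2) (5, τ, l)) := by
        rintro ⟨h, h'⟩
        have := between H e0 o1.1 o0.1 o2.1 (by simp [Adj]) (by simp [Adj]) h h'
        simp [Adj] at this
      have n3 : ¬ (Bef p q (5, τ, l + 1) (5, τ, l) ∧ Bef p q (5, τ, l) (5, τ, l + 2)) := by
        rintro ⟨h, h'⟩
        have := between H e1 o1.1 o2.1 o0.1 (by simp [Adj]) (by simp [Adj]) h h'
        simp [Adj] at this
        omega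
      have n4 : ¬ (Bef p q (5, τ, l + 2) (5, τ, l) ∧ Bef p q (5, τ, l) (5, τ, l + 1)) := by
        rintro ⟨h, h'⟩
        have := between H e1 o2.1 o1.1 o0.1 (by simp [Adj]) (by simp [Adj]) h h'
        simp [Adj] at this
        omega
      rcases total H o0 o1 (by simp) with h01 | h01 <;>
        rcases total H o1 o2 (by simp) with h12 | h12 <;>
        rcases total H o0 o2 (by simp) with h02 | h02 <;> tauto
    rcases Nat.lt_or_ge 1 (len τ) with h1 | h1
    · have o0 : Ord N tags len ((5, τ, 0) : VD) := ox hτ (by omega)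
      have o1 : Ord N tags len ((5, τ, 1) : VD) := ox hτ h1
      rcases total H o0 o1 (by simp) with h | h
      · left
        have : ∀ l, l + 1 < len τ → Bef p q (5, τ, l) (5, τ, l + 1) := by
          intro l
          induction l with
          | zero => intro _; exact h
          | succ l ih =>
            intro hl
            rcases key l hl with h' | h'
            · exact h'.2
            · exact absurd h'.2 (fun h'' => (ih (by omega)).asymm h'')
        intro l hl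
        have := this l hl
        exact add_lt_add this.1 this.2
      · right
        have : ∀ l, l + 1 < len τ → Bef p q (5, τ, l + 1) (5, τ, l) := by
          intro l
          induction l with
          | zero => intro _; exact h
          | succ l ih =>
            intro hl
            rcases key l hl with h' | h'
            · exact absurd h'.1 (fun h'' => (ih (by omega)).asymm h'')
            · exact h'.1
        intro l hl
        have := this l hl
        exact add_lt_add this.1 this.2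
    · left
      intro l hl
      omega
  · intro τ hτ l hl i j hij hi hj
    have o := ox hτ hl
    have x5 := o.1
    have g1 : Adj ρ (5, τ, l) (mk 0 i) := by simp [Adj, mk, hij]
    have g2 : ¬ Adj ρ (5, τ, l) (mk 0 (i + 1)) := by simp [Adj, mk, hij]
    have g3 : Adj ρ (5, τ, l) (mk 1 j) := by simp [Adj, mk, hij]
    have g4 : ¬ Adj ρ (5, τ, l) (mk 1 (j + 1)) := by simp [Adj, mk, hij]
    have g5 : Adj ρ (5, τ, l) (mk 4 0) := by simp [Adj, mk]
    rw [H _ x5 _ (oa (by omega : i < N)).1] at g1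
    rw [H _ x5 _ (oa hi).1] at g2
    rw [H _ x5 _ (oz (by omega : j < N)).1] at g3
    rw [H _ x5 _ (oz hj).1] at g4
    rw [H _ x5 _ oo.1] at g5
    have a1 := (ha hi).1
    have z1 := (hz hj).2
    have g6 : q (mk 0 (i + 1)) < L (5, τ, l) := by
      by_contra h
      exact g2 ⟨not_lt.1 h, a1.le.trans g5.2⟩
    have g7 : R (5, τ, l) < p (mk 1 (j + 1)) := by
      by_contra h
      exact g4 ⟨g5.1.trans z1.le, not_lt.1 h⟩
    have := htol _ x5
    constructor
    · linarith [g3.2]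
    · linarith [g1.1]

/-- Every representation gives a solution of the system of the rulers. -/
theorem sound (hN : 0 < N) (htol : ∀ u ∈ verts N tags len, p u + q u = L u + R u) :
    ∃ (α β : ℕ → ℝ) (t : Tag → ℕ → ℝ),
      (∀ τ ∈ tags, (∀ l, l + 1 < len τ → t τ l < t τ (l + 1)) ∨
        (∀ l, l + 1 < len τ → t τ (l + 1) < t τ l)) ∧
      ∀ τ ∈ tags, ∀ l < len τ, ∀ i j, ρ τ l = (i + 1, j + 1) → i + 1 < N → j + 1 < N →
        β j - α (i + 1) < t τ l ∧ t τ l < β (j + 1) - α i := by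
  have oa : Ord N tags len (mk 0 0) := ⟨mk_mem (by norm_num) hN, Or.inl rfl⟩
  have oo : Ord N tags len (mk 4 0) := ⟨mk4_mem, Or.inr (Or.inr (Or.inl rfl))⟩
  rcases total H oa oo (by simp [mk]) with h | h
  · obtain ⟨h1, h2⟩ := sound_core H hN htol h
    refine ⟨fun i => - q (mk 0 i), fun j => p (mk 1 j), fun τ l => p (5, τ, l) + q (5, τ, l), h1,
      fun τ hτ l hl i j hij hi hj => ?_⟩
    have := h2 τ hτ l hl i j hij hi hj
    constructor <;> linarith [this.1, this.2]
  · have H' : ∀ u ∈ verts N tags len, ∀ v ∈ verts N tags len,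
        (Adj ρ u v ↔ (fun x => - R x) u ≤ (fun x => - p x) v ∧
          (fun x => - q x) v ≤ (fun x => - L x) u) := by
      intro u hu v hv
      rw [H u hu v hv]
      simp only [neg_le_neg_iff]
      tauto
    have h' : Bef (fun x => - q x) (fun x => - p x) (mk 0 0) (mk 4 0) :=
      ⟨neg_lt_neg h.2, neg_lt_neg h.1⟩
    obtain ⟨h1, h2⟩ := sound_core H' hN (fun u hu => by
      have := htol u hu
      linarith) h'
    refine ⟨fun i => p (mk 0 i), fun j => - q (mk 1 j),
      fun τ l => - q (5, τ, l) + - p (5, τ, l), h1, fun τ hτ l hl i j hij hi hj => ?_⟩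
    have := h2 τ hτ l hl i j hij hi hj
    constructor <;> linarith [this.1, this.2]

end Sound

end Pool.Agent.W983.Tol
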