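import Mathlib
import Pool.Agent.W983.Tol.Sound

set_option autoImplicit false
set_option linter.unusedSectionVars false

/-!
# The ruler digraphs: construction of a representation
-/

namespace Pool.Agent.W983.Tol

section Seq

variable {s : ℕ → ℝ}

theorem seqB_mono (hs : StrictMono s) (l l' : ℕ) :
    (min (s l) (s (l + 1)) ≤ s l' ∧ s l' ≤ max (s l) (s (l + 1))) ↔ (l' = l ∨ l' = l + 1) := by
  have h := hs (Nat.lt_succ_self l)
  rw [min_eq_left h.le, max_eq_right h.le, hs.le_iff_le, hs.le_iff_le]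
  omega

theorem seqB (hs : StrictMono s ∨ StrictAnti s) (l l' : ℕ) :
    (min (s l) (s (l + 1)) ≤ s l' ∧ s l' ≤ max (s l) (s (l + 1))) ↔ (l' = l ∨ l' = l + 1) := by
  rcases hs with hs | hs
  · exact seqB_mono hs l l'
  · have := seqB_mono (s := fun n => - s n) hs.neg l l'
    rw [← this, min_neg_neg, max_neg_neg, neg_le_neg_iff, neg_le_neg_iff]
    tauto

theorem seqC_mono (hs : StrictMono s) (l l' : ℕ) :
    (min (s l) (s (l + 1)) ≤ (s l' + s (l' + 1)) / 2 ∧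
      (s l' + s (l' + 1)) / 2 ≤ max (s l) (s (l + 1))) ↔ l' = l := by
  have h := hs (Nat.lt_succ_self l)
  have h' := hs (Nat.lt_succ_self l')
  rw [min_eq_left h.le, max_eq_right h.le]
  simp only [Nat.succ_eq_add_one] at h h'
  constructor
  · rintro ⟨h1, h2⟩
    by_contra hne
    rcases lt_or_gt_of_ne hne with h3 | h3
    · have : s (l' + 1) ≤ s l := hs.monotone h3
      linarith
    · have : s (l + 1) ≤ s l' := hs.monotone h3
      linarith
  · rintro rfl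
    constructor <;> linarith

theorem seqC (hs : StrictMono s ∨ StrictAnti s) (l l' : ℕ) :
    (min (s l) (s (l + 1)) ≤ (s l' + s (l' + 1)) / 2 ∧
      (s l' + s (l' + 1)) / 2 ≤ max (s l) (s (l + 1))) ↔ l' = l := by
  rcases hs with hs | hs
  · exact seqC_mono hs l l'
  · have := seqC_mono (s := fun n => - s n) hs.neg l l'
    rw [← this, min_neg_neg, max_neg_neg]
    constructor
    · rintro ⟨h1, h2⟩
      constructor <;> linarith
    · rintro ⟨h1, h2⟩
      constructor <;> linarith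

theorem seqD_mono (hs : StrictMono s) (l l' : ℕ) : (s l' + s (l' + 1)) / 2 ≠ s l := by
  have h' := hs (Nat.lt_succ_self l')
  simp only [Nat.succ_eq_add_one] at h'
  intro h
  rcases Nat.lt_or_ge l' l with h3 | h3
  · have : s (l' + 1) ≤ s l := hs.monotone h3
    linarith
  · have : s l ≤ s l' := hs.monotone h3
    linarith

theorem seqD (hs : StrictMono s ∨ StrictAnti s) (l l' : ℕ) : (s l' + s (l' + 1)) / 2 ≠ s l := by
  rcases hs with hs | hs
  · exact seqD_mono hs l l'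
  · have := seqD_mono (s := fun n => - s n) hs.neg l l'
    intro h
    apply this
    linarith

theorem seqA (hs : StrictMono s ∨ StrictAnti s) (l l' : ℕ) : s l' = s l ↔ l' = l := by
  rcases hs with hs | hs
  · exact hs.injective.eq_iff
  · exact hs.injective.eq_iff

end Seq

section

variable (α β : ℕ → ℝ) (s : Tag → ℕ → ℝ) (T : ℝ) (ρ : Tag → ℕ → ℕ × ℕ)

/-- The radius of a main vertex of a block. -/
noncomputable def rad (τ : Tag) (l : ℕ) : ℝ :=
  max (α ((ρ τ l).1 - 1) + s τ l) (β ((ρ τ l).2 - 1) - s τ l)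

/-- The left end. -/
noncomputable def lend (u : VD) : ℝ :=
  if u.1 = 0 then - α u.2.2 else if u.1 = 1 then β u.2.2 else if u.1 = 2 then - α u.2.2 else
  if u.1 = 3 then - T else if u.1 = 4 then T else
  if u.1 = 5 then s u.2.1 u.2.2 - rad α β s ρ u.2.1 u.2.2 else
  if u.1 = 6 then s u.2.1 u.2.2 else min (s u.2.1 u.2.2) (s u.2.1 (u.2.2 + 1))

/-- The right end. -/
noncomputable def rend (u : VD) : ℝ :=
  if u.1 = 0 then - α u.2.2 else if u.1 = 1 then β u.2.2 else if u.1 = 2 then T else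
  if u.1 = 3 then β u.2.2 else if u.1 = 4 then T else
  if u.1 = 5 then s u.2.1 u.2.2 + rad α β s ρ u.2.1 u.2.2 else
  if u.1 = 6 then s u.2.1 u.2.2 else max (s u.2.1 u.2.2) (s u.2.1 (u.2.2 + 1))

/-- The centre. -/
noncomputable def cen (u : VD) : ℝ :=
  if u.1 = 0 then - α u.2.2 else if u.1 = 1 then β u.2.2 else if u.1 = 2 then (T - α u.2.2) / 2 else
  if u.1 = 3 then (β u.2.2 - T) / 2 else if u.1 = 4 then T else
  if u.1 = 5 then s u.2.1 u.2.2 else
  if u.1 = 6 then s u.2.1 u.2.2 else (s u.2.1 u.2.2 + s u.2.1 (u.2.2 + 1)) / 2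

theorem cen_eq (u : VD) : (lend α β s T ρ u + rend α β s T ρ u) / 2 = cen α β s T u := by
  unfold lend rend cen
  split_ifs
  · ring
  · ring
  · ring
  · ring
  · ring
  · ring
  · ring
  · rw [min_add_max]

end

variable {N : ℕ} {tags : List Tag} {len : Tag → ℕ} {ρ : Tag → ℕ → ℕ × ℕ}
  {α β : ℕ → ℝ} {s : Tag → ℕ → ℝ} {T : ℝ}

/-- The hypotheses of the construction. -/
structure Sys (N : ℕ) (tags : List Tag) (len : Tag → ℕ) (ρ : Tag → ℕ → ℕ × ℕ)
    (α β : ℕ → ℝ) (s : Tag → ℕ → ℝ) (T : ℝ) : Prop where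
  T0 : 0 < T
  N0 : 0 < N
  hα : ∀ i j, i < j → j < N → α i < α j
  hβ : ∀ i j, i < j → j < N → β i < β j
  α0 : 3 * T < α 0
  β0 : 3 * T < β 0
  α1 : ∀ i < N, α i < 2 * α 0
  β1 : ∀ i < N, β i < 2 * β 0
  win : ∀ τ ∈ tags, ∀ l < len τ, ∃ i j, ρ τ l = (i + 1, j + 1) ∧ i + 1 < N ∧ j + 1 < N ∧
    β j - α (i + 1) < 2 * s τ l ∧ 2 * s τ l < β (j + 1) - α i
  mono : ∀ τ ∈ tags, StrictMono (s τ) ∨ StrictAnti (s τ)
  bd : ∀ τ ∈ tags, ∀ l ≤ len τ, - T < s τ l ∧ s τ l < T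
  sep : ∀ τ ∈ tags, ∀ σ ∈ tags, τ ≠ σ → (∀ l ≤ len τ, ∀ l' ≤ len σ, s τ l < s σ l') ∨
    (∀ l ≤ len τ, ∀ l' ≤ len σ, s σ l' < s τ l)

namespace Sys

variable (h : Sys N tags len ρ α β s T)

include h

theorem α_le {i j : ℕ} (hi : i < N) (hj : j < N) : α i ≤ α j ↔ i ≤ j := by
  constructor
  · intro hle
    by_contra hlt
    exact absurd (h.hα j i (not_le.1 hlt) hi) (not_lt.2 hle)
  · intro hle
    rcases hle.lt_or_eq with h1 | rfl
    · exact (h.hα i j h1 hj).le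
    · exact le_rfl

theorem β_le {i j : ℕ} (hi : i < N) (hj : j < N) : β i ≤ β j ↔ i ≤ j := by
  constructor
  · intro hle
    by_contra hlt
    exact absurd (h.hβ j i (not_le.1 hlt) hi) (not_lt.2 hle)
  · intro hle
    rcases hle.lt_or_eq with h1 | rfl
    · exact (h.hβ i j h1 hj).le
    · exact le_rfl

theorem α_ge {i : ℕ} (hi : i < N) : α 0 ≤ α i := (h.α_le h.N0 hi).2 (Nat.zero_le _)

theorem β_ge {i : ℕ} (hi : i < N) : β 0 ≤ β i := (h.β_le h.N0 hi).2 (Nat.zero_le _)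

/-- The position of the vertices of the blocks. -/
theorem pos {u : VD} (hu : u ∈ verts N tags len) (h5 : 5 ≤ u.1) :
    - T < cen α β s T u ∧ cen α β s T u < T := by
  rw [mem_verts] at hu
  rcases hu with hu | hu | hu
  · omega
  · rw [hu] at h5
    simp at h5
  · obtain ⟨_, h7, ht, hl⟩ := hu
    have b1 := h.bd _ ht _ hl.le
    have b2 := h.bd _ ht _ (Nat.succ_le_of_lt hl)
    simp only [Nat.succ_eq_add_one] at b2
    unfold cen
    have : u.1 = 5 ∨ u.1 = 6 ∨ u.1 = 7 := by omega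
    rcases this with h | h | h <;> simp only [h] <;> norm_num
    · exact b1
    · exact b1
    · constructor <;> linarith [b1.1, b1.2, b2.1, b2.2]

theorem cen0 {u : VD} (h0 : u.1 = 0) : cen α β s T u = - α u.2.2 := by
  simp [cen, h0]

theorem cen1 {u : VD} (h0 : u.1 = 1) : cen α β s T u = β u.2.2 := by
  simp [cen, h0]

theorem cen2 {u : VD} (h0 : u.1 = 2) : cen α β s T u = (T - α u.2.2) / 2 := by
  simp [cen, h0]

theorem cen3 {u : VD} (h0 : u.1 = 3) : cen α β s T u = (β u.2.2 - T) / 2 := by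
  simp [cen, h0]

theorem cen4 {u : VD} (h0 : u.1 = 4) : cen α β s T u = T := by
  simp [cen, h0]

theorem cen5 {u : VD} (h0 : u.1 = 5) : cen α β s T u = s u.2.1 u.2.2 := by
  simp [cen, h0]

theorem cen6 {u : VD} (h0 : u.1 = 6) : cen α β s T u = s u.2.1 u.2.2 := by
  simp [cen, h0]

theorem cen7 {u : VD} (h0 : u.1 = 7) :
    cen α β s T u = (s u.2.1 u.2.2 + s u.2.1 (u.2.2 + 1)) / 2 := by
  simp [cen, h0]

/-- Where the centre of a vertex which is not in a block lies. -/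
theorem small {u : VD} (hu : u ∈ verts N tags len) (h5 : u.1 < 5) :
    (u.1 = 0 ∧ u.2.2 < N ∧ cen α β s T u = - α u.2.2) ∨
    (u.1 = 1 ∧ u.2.2 < N ∧ cen α β s T u = β u.2.2) ∨
    (u.1 = 2 ∧ u.2.2 < N ∧ - α 0 < cen α β s T u ∧ cen α β s T u < - T) ∨
    (u.1 = 3 ∧ u.2.2 < N ∧ T < cen α β s T u ∧ cen α β s T u < β 0) ∨
    (u.1 = 4 ∧ cen α β s T u = T) := by
  rw [mem_verts] at hu
  have hT := h.T0
  have ha0 := h.α0
  have hb0 := h.β0
  rcases hu with hu | hu | hu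
  · obtain ⟨h4, ht, hi⟩ := hu
    have : u.1 = 0 ∨ u.1 = 1 ∨ u.1 = 2 ∨ u.1 = 3 := by omega
    have a1 := h.α1 _ hi
    have b1 := h.β1 _ hi
    have a2 := h.α_ge hi
    have b2 := h.β_ge hi
    rcases this with h0 | h0 | h0 | h0
    · exact Or.inl ⟨h0, hi, h.cen0 h0⟩
    · exact Or.inr (Or.inl ⟨h0, hi, h.cen1 h0⟩)
    · refine Or.inr (Or.inr (Or.inl ⟨h0, hi, ?_⟩))
      rw [h.cen2 h0]
      constructor <;> linarith
    · refine Or.inr (Or.inr (Or.inr (Or.inl ⟨h0, hi, ?_⟩)))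
      rw [h.cen3 h0]
      constructor <;> linarith
  · right; right; right; right
    rw [hu]
    exact ⟨rfl, h.cen4 rfl⟩
  · omega

/-- The five cases for the position of a vertex. -/
theorem cases {v : VD} (hv : v ∈ verts N tags len) :
    (v.1 = 0 ∧ v.2.2 < N ∧ cen α β s T v = - α v.2.2 ∧ α 0 ≤ α v.2.2) ∨
    (v.1 = 1 ∧ v.2.2 < N ∧ cen α β s T v = β v.2.2 ∧ β 0 ≤ β v.2.2) ∨
    (v.1 = 2 ∧ - α 0 < cen α β s T v ∧ cen α β s T v < - T) ∨
    (v.1 = 3 ∧ T < cen α β s T v ∧ cen α β s T v < β 0) ∨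
    (v.1 = 4 ∧ cen α β s T v = T) ∨
    ((v.1 = 5 ∨ v.1 = 6 ∨ v.1 = 7) ∧ v.2.1 ∈ tags ∧ v.2.2 < len v.2.1 ∧
      - T < cen α β s T v ∧ cen α β s T v < T) := by
  rcases Nat.lt_or_ge v.1 5 with h5 | h5
  · rcases h.small hv h5 with h1 | h1 | h1 | h1 | h1
    · exact Or.inl ⟨h1.1, h1.2.1, h1.2.2, h.α_ge h1.2.1⟩
    · exact Or.inr (Or.inl ⟨h1.1, h1.2.1, h1.2.2, h.β_ge h1.2.1⟩)
    · exact Or.inr (Or.inr (Or.inl ⟨h1.1, h1.2.2⟩))
    · exact Or.inr (Or.inr (Or.inr (Or.inl ⟨h1.1, h1.2.2⟩)))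
    · exact Or.inr (Or.inr (Or.inr (Or.inr (Or.inl h1))))
  · right; right; right; right; right
    have hp := h.pos hv h5
    rw [mem_verts] at hv
    rcases hv with hv | hv | hv
    · omega
    · rw [hv] at h5
      simp at h5
    · exact ⟨by omega, hv.2.2.1, hv.2.2.2, hp⟩

theorem adj0 {u v : VD} (hu : u ∈ verts N tags len) (hv : v ∈ verts N tags len) (h0 : u.1 = 0) :
    Adj ρ u v ↔ lend α β s T ρ u ≤ cen α β s T v ∧ cen α β s T v ≤ rend α β s T ρ u := by
  have hT := h.T0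
  have ha0 := h.α0
  have hb0 := h.β0
  have hl : lend α β s T ρ u = - α u.2.2 := by simp [lend, h0]
  have hr : rend α β s T ρ u = - α u.2.2 := by simp [rend, h0]
  have ha : Adj ρ u v ↔ v.1 = 0 ∧ v.2.2 = u.2.2 := by simp [Adj, h0]
  have hi : u.2.2 < N := by
    rcases h.cases hu with h1 | h1 | h1 | h1 | h1 | h1 <;> first | exact h1.2.1 | omega
  have hge := h.α_ge hi
  rw [hl, hr, ha]
  rcases h.cases hv with h1 | h1 | h1 | h1 | h1 | h1
  · rw [h1.2.2.1, neg_le_neg_iff, neg_le_neg_iff, h.α_le h1.2.1 hi, h.α_le hi h1.2.1]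
    omega
  · constructor
    · intro h2; omega
    · rintro ⟨h2, h3⟩; exfalso; linarith [h1.2.2.1, h1.2.2.2]
  · constructor
    · intro h2; omega
    · rintro ⟨h2, h3⟩; exfalso; linarith [h1.2.1]
  · constructor
    · intro h2; omega
    · rintro ⟨h2, h3⟩; exfalso; linarith [h1.2.1]
  · constructor
    · intro h2; omega
    · rintro ⟨h2, h3⟩; exfalso; linarith [h1.2]
  · constructor
    · intro h2; omega
    · rintro ⟨h2, h3⟩; exfalso; linarith [h1.2.2.2.1]

theorem adj1 {u v : VD} (hu : u ∈ verts N tags len) (hv : v ∈ verts N tags len) (h0 : u.1 = 1) :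
    Adj ρ u v ↔ lend α β s T ρ u ≤ cen α β s T v ∧ cen α β s T v ≤ rend α β s T ρ u := by
  have hT := h.T0
  have ha0 := h.α0
  have hb0 := h.β0
  have hl : lend α β s T ρ u = β u.2.2 := by simp [lend, h0]
  have hr : rend α β s T ρ u = β u.2.2 := by simp [rend, h0]
  have ha : Adj ρ u v ↔ v.1 = 1 ∧ v.2.2 = u.2.2 := by simp [Adj, h0]
  have hi : u.2.2 < N := by
    rcases h.cases hu with h1 | h1 | h1 | h1 | h1 | h1 <;> first | exact h1.2.1 | omega
  have hge := h.β_ge hi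
  rw [hl, hr, ha]
  rcases h.cases hv with h1 | h1 | h1 | h1 | h1 | h1
  · constructor
    · intro h2; omega
    · rintro ⟨h2, h3⟩; exfalso; linarith [h1.2.2.1, h1.2.2.2]
  · rw [h1.2.2.1, h.β_le h1.2.1 hi, h.β_le hi h1.2.1]
    omega
  · constructor
    · intro h2; omega
    · rintro ⟨h2, h3⟩; exfalso; linarith [h1.2.2]
  · constructor
    · intro h2; omega
    · rintro ⟨h2, h3⟩; exfalso; linarith [h1.2.2]
  · constructor
    · intro h2; omega
    · rintro ⟨h2, h3⟩; exfalso; linarith [h1.2]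
  · constructor
    · intro h2; omega
    · rintro ⟨h2, h3⟩; exfalso; linarith [h1.2.2.2.2]

theorem adj2 {u v : VD} (hu : u ∈ verts N tags len) (hv : v ∈ verts N tags len) (h0 : u.1 = 2) :
    Adj ρ u v ↔ lend α β s T ρ u ≤ cen α β s T v ∧ cen α β s T v ≤ rend α β s T ρ u := by
  have hT := h.T0
  have ha0 := h.α0
  have hb0 := h.β0
  have hl : lend α β s T ρ u = - α u.2.2 := by simp [lend, h0]
  have hr : rend α β s T ρ u = T := by simp [rend, h0]
  have ha : Adj ρ u v ↔ ((v.1 = 0 ∧ v.2.2 ≤ u.2.2) ∨ v.1 = 2 ∨ 4 ≤ v.1) := by simp [Adj, h0]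
  have hi : u.2.2 < N := by
    rcases h.small hu (by omega) with h1 | h1 | h1 | h1 | h1 <;> first | exact h1.2.1 | omega
  have hge := h.α_ge hi
  rw [hl, hr, ha]
  rcases h.cases hv with h1 | h1 | h1 | h1 | h1 | h1
  · rw [h1.2.2.1, neg_le_neg_iff, h.α_le h1.2.1 hi]
    constructor
    · intro h2
      refine ⟨by omega, by linarith⟩
    · rintro ⟨h2, h3⟩
      omega
  · constructor
    · intro h2; omega
    · rintro ⟨h2, h3⟩; exfalso; linarith [h1.2.2.1, h1.2.2.2]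
  · exact ⟨fun _ => ⟨by linarith [h1.2.1], by linarith [h1.2.2]⟩, fun _ => by omega⟩
  · constructor
    · intro h2; omega
    · rintro ⟨h2, h3⟩; exfalso; linarith [h1.2.1]
  · exact ⟨fun _ => ⟨by linarith [h1.2], by linarith [h1.2]⟩, fun _ => by omega⟩
  · exact ⟨fun _ => ⟨by linarith [h1.2.2.2.1], by linarith [h1.2.2.2.2]⟩, fun _ => by omega⟩

theorem adj3 {u v : VD} (hu : u ∈ verts N tags len) (hv : v ∈ verts N tags len) (h0 : u.1 = 3) :
    Adj ρ u v ↔ lend α β s T ρ u ≤ cen α β s T v ∧ cen α β s T v ≤ rend α β s T ρ u := by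
  have hT := h.T0
  have ha0 := h.α0
  have hb0 := h.β0
  have hl : lend α β s T ρ u = - T := by simp [lend, h0]
  have hr : rend α β s T ρ u = β u.2.2 := by simp [rend, h0]
  have ha : Adj ρ u v ↔ ((v.1 = 1 ∧ v.2.2 ≤ u.2.2) ∨ 3 ≤ v.1) := by simp [Adj, h0]
  have hi : u.2.2 < N := by
    rcases h.small hu (by omega) with h1 | h1 | h1 | h1 | h1 <;> first | exact h1.2.1 | omega
  have hge := h.β_ge hi
  rw [hl, hr, ha]
  rcases h.cases hv with h1 | h1 | h1 | h1 | h1 | h1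
  · constructor
    · intro h2; omega
    · rintro ⟨h2, h3⟩; exfalso; linarith [h1.2.2.1, h1.2.2.2]
  · rw [h1.2.2.1, h.β_le h1.2.1 hi]
    constructor
    · intro h2
      refine ⟨by linarith [h1.2.2.2], by omega⟩
    · rintro ⟨h2, h3⟩
      omega
  · constructor
    · intro h2; omega
    · rintro ⟨h2, h3⟩; exfalso; linarith [h1.2.2]
  · exact ⟨fun _ => ⟨by linarith [h1.2.1], by linarith [h1.2.2]⟩, fun _ => by omega⟩
  · exact ⟨fun _ => ⟨by linarith [h1.2], by linarith [h1.2]⟩, fun _ => by omega⟩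
  · exact ⟨fun _ => ⟨by linarith [h1.2.2.2.1], by linarith [h1.2.2.2.2]⟩, fun _ => by omega⟩

theorem adj4 {u v : VD} (hu : u ∈ verts N tags len) (hv : v ∈ verts N tags len) (h0 : u.1 = 4) :
    Adj ρ u v ↔ lend α β s T ρ u ≤ cen α β s T v ∧ cen α β s T v ≤ rend α β s T ρ u := by
  have hT := h.T0
  have ha0 := h.α0
  have hb0 := h.β0
  have hl : lend α β s T ρ u = T := by simp [lend, h0]
  have hr : rend α β s T ρ u = T := by simp [rend, h0]
  have ha : Adj ρ u v ↔ v.1 = 4 := by simp [Adj, h0]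
  rw [hl, hr, ha]
  rcases h.cases hv with h1 | h1 | h1 | h1 | h1 | h1
  · constructor
    · intro h2; omega
    · rintro ⟨h2, h3⟩; exfalso; linarith [h1.2.2.1, h1.2.2.2]
  · constructor
    · intro h2; omega
    · rintro ⟨h2, h3⟩; exfalso; linarith [h1.2.2.1, h1.2.2.2]
  · constructor
    · intro h2; omega
    · rintro ⟨h2, h3⟩; exfalso; linarith [h1.2.2]
  · constructor
    · intro h2; omega
    · rintro ⟨h2, h3⟩; exfalso; linarith [h1.2.1]
  · exact ⟨fun _ => ⟨by linarith [h1.2], by linarith [h1.2]⟩, fun _ => by omega⟩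
  · constructor
    · intro h2; omega
    · rintro ⟨h2, h3⟩; exfalso; linarith [h1.2.2.2.2]

theorem adj5 {u v : VD} (hu : u ∈ verts N tags len) (hv : v ∈ verts N tags len) (h0 : u.1 = 5) :
    Adj ρ u v ↔ lend α β s T ρ u ≤ cen α β s T v ∧ cen α β s T v ≤ rend α β s T ρ u := by
  have hT := h.T0
  have ha0 := h.α0
  have hb0 := h.β0
  have hl : lend α β s T ρ u = s u.2.1 u.2.2 - rad α β s ρ u.2.1 u.2.2 := by simp [lend, h0]
  have hr : rend α β s T ρ u = s u.2.1 u.2.2 + rad α β s ρ u.2.1 u.2.2 := by simp [rend, h0]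
  have ha : Adj ρ u v ↔ ((v.1 = 0 ∧ v.2.2 < (ρ u.2.1 u.2.2).1) ∨
      (v.1 = 1 ∧ v.2.2 < (ρ u.2.1 u.2.2).2) ∨ 2 ≤ v.1) := by simp [Adj, h0]
  have hu' : u.2.1 ∈ tags ∧ u.2.2 < len u.2.1 := by
    rcases h.cases hu with h1 | h1 | h1 | h1 | h1 | h1 <;>
      first | exact ⟨h1.2.1, h1.2.2.1⟩ | omega
  obtain ⟨i, j, hij, hi, hj, w1, w2⟩ := h.win _ hu'.1 _ hu'.2
  have a1 := h.hα i (i + 1) (Nat.lt_succ_self _) hi
  have b1 := h.hβ j (j + 1) (Nat.lt_succ_self _) hj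
  have a2 := h.α_ge (show i < N by omega)
  have b2 := h.β_ge (show j < N by omega)
  have hrad : rad α β s ρ u.2.1 u.2.2 = max (α i + s u.2.1 u.2.2) (β j - s u.2.1 u.2.2) := by
    unfold rad
    rw [hij]
    rfl
  have r1 : α i + s u.2.1 u.2.2 ≤ rad α β s ρ u.2.1 u.2.2 := by rw [hrad]; exact le_max_left _ _
  have r2 : β j - s u.2.1 u.2.2 ≤ rad α β s ρ u.2.1 u.2.2 := by rw [hrad]; exact le_max_right _ _
  have r3 : rad α β s ρ u.2.1 u.2.2 < α (i + 1) + s u.2.1 u.2.2 := by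
    rw [hrad]
    exact max_lt (by linarith) (by linarith)
  have r4 : rad α β s ρ u.2.1 u.2.2 < β (j + 1) - s u.2.1 u.2.2 := by
    rw [hrad]
    exact max_lt (by linarith) (by linarith)
  rw [hl, hr, ha, hij]
  simp only
  rcases h.cases hv with h1 | h1 | h1 | h1 | h1 | h1
  · rw [h1.2.2.1]
    constructor
    · intro h2
      have h3 : v.2.2 ≤ i := by omega
      have h4 := (h.α_le h1.2.1 (by omega : i < N)).2 h3
      exact ⟨by linarith, by linarith⟩
    · rintro ⟨h2, h3⟩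
      by_contra h4
      have h5 : i + 1 ≤ v.2.2 := by omega
      have h6 := (h.α_le hi h1.2.1).2 h5
      linarith
  · rw [h1.2.2.1]
    constructor
    · intro h2
      have h3 : v.2.2 ≤ j := by omega
      have h4 := (h.β_le h1.2.1 (by omega : j < N)).2 h3
      exact ⟨by linarith, by linarith⟩
    · rintro ⟨h2, h3⟩
      by_contra h4
      have h5 : j + 1 ≤ v.2.2 := by omega
      have h6 := (h.β_le hj h1.2.1).2 h5
      linarith
  · exact ⟨fun _ => ⟨by linarith [h1.2.1], by linarith [h1.2.2]⟩, fun _ => by omega⟩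
  · exact ⟨fun _ => ⟨by linarith [h1.2.1], by linarith [h1.2.2]⟩, fun _ => by omega⟩
  · exact ⟨fun _ => ⟨by linarith [h1.2], by linarith [h1.2]⟩, fun _ => by omega⟩
  · exact ⟨fun _ => ⟨by linarith [h1.2.2.2.1], by linarith [h1.2.2.2.2]⟩, fun _ => by omega⟩

/-- Two different blocks are separated. -/
theorem sep' {u v : VD} (hu : u.2.1 ∈ tags ∧ u.2.2 < len u.2.1)
    (hv : v.2.1 ∈ tags ∧ v.2.2 < len v.2.1) (h5 : v.1 = 5 ∨ v.1 = 6 ∨ v.1 = 7)
    (hne : v.2.1 ≠ u.2.1) :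
    cen α β s T v < min (s u.2.1 u.2.2) (s u.2.1 (u.2.2 + 1)) ∨
      max (s u.2.1 u.2.2) (s u.2.1 (u.2.2 + 1)) < cen α β s T v := by
  rcases h.sep _ hu.1 _ hv.1 (Ne.symm hne) with h1 | h1
  · right
    have e1 := h1 _ hu.2.le _ hv.2.le
    have e2 := h1 _ hu.2.le _ (Nat.succ_le_of_lt hv.2)
    have e3 := h1 _ (Nat.succ_le_of_lt hu.2) _ hv.2.le
    have e4 := h1 _ (Nat.succ_le_of_lt hu.2) _ (Nat.succ_le_of_lt hv.2)
    simp only [Nat.succ_eq_add_one] at e1 e2 e3 e4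
    rcases h5 with h5 | h5 | h5
    · rw [h.cen5 h5]; exact max_lt e1 e3
    · rw [h.cen6 h5]; exact max_lt e1 e3
    · rw [h.cen7 h5]; exact max_lt (by linarith) (by linarith)
  · left
    have e1 := h1 _ hu.2.le _ hv.2.le
    have e2 := h1 _ hu.2.le _ (Nat.succ_le_of_lt hv.2)
    have e3 := h1 _ (Nat.succ_le_of_lt hu.2) _ hv.2.le
    have e4 := h1 _ (Nat.succ_le_of_lt hu.2) _ (Nat.succ_le_of_lt hv.2)
    simp only [Nat.succ_eq_add_one] at e1 e2 e3 e4
    rcases h5 with h5 | h5 | h5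
    · rw [h.cen5 h5]; exact lt_min e1 e3
    · rw [h.cen6 h5]; exact lt_min e1 e3
    · rw [h.cen7 h5]; exact lt_min (by linarith) (by linarith)

theorem adj6 {u v : VD} (hu : u ∈ verts N tags len) (hv : v ∈ verts N tags len) (h0 : u.1 = 6) :
    Adj ρ u v ↔ lend α β s T ρ u ≤ cen α β s T v ∧ cen α β s T v ≤ rend α β s T ρ u := by
  have hT := h.T0
  have ha0 := h.α0
  have hb0 := h.β0
  have hl : lend α β s T ρ u = s u.2.1 u.2.2 := by simp [lend, h0]
  have hr : rend α β s T ρ u = s u.2.1 u.2.2 := by simp [rend, h0]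
  have ha : Adj ρ u v ↔ ((v.1 = 5 ∨ v.1 = 6) ∧ v.2.1 = u.2.1 ∧ v.2.2 = u.2.2) := by
    simp [Adj, h0]
  have hu' : u.2.1 ∈ tags ∧ u.2.2 < len u.2.1 ∧ - T < cen α β s T u ∧ cen α β s T u < T := by
    rcases h.cases hu with h1 | h1 | h1 | h1 | h1 | h1 <;>
      first | exact ⟨h1.2.1, h1.2.2.1, h1.2.2.2⟩ | omega
  rw [h.cen6 h0] at hu'
  rw [hl, hr, ha]
  rcases h.cases hv with h1 | h1 | h1 | h1 | h1 | h1
  · constructor
    · intro h2; omega
    · rintro ⟨h2, h3⟩; exfalso; linarith [h1.2.2.1, h1.2.2.2, hu'.2.2.1]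
  · constructor
    · intro h2; omega
    · rintro ⟨h2, h3⟩; exfalso; linarith [h1.2.2.1, h1.2.2.2, hu'.2.2.2]
  · constructor
    · intro h2; omega
    · rintro ⟨h2, h3⟩; exfalso; linarith [h1.2.2, hu'.2.2.1]
  · constructor
    · intro h2; omega
    · rintro ⟨h2, h3⟩; exfalso; linarith [h1.2.1, hu'.2.2.2]
  · constructor
    · intro h2; omega
    · rintro ⟨h2, h3⟩; exfalso; linarith [h1.2, hu'.2.2.2]
  · have hcv : s u.2.1 u.2.2 ≤ cen α β s T v ∧ cen α β s T v ≤ s u.2.1 u.2.2 ↔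
        cen α β s T v = s u.2.1 u.2.2 :=
      ⟨fun h => le_antisymm h.2 h.1, fun h => ⟨h.ge, h.le⟩⟩
    rw [hcv]
    by_cases hne : v.2.1 = u.2.1
    · have hm := h.mono _ hu'.1
      rcases h1.1 with h5 | h5 | h5
      · rw [h.cen5 h5, hne, seqA hm]
        simp [h5]
      · rw [h.cen6 h5, hne, seqA hm]
        simp [h5]
      · rw [h.cen7 h5, hne]
        constructor
        · rintro ⟨h6, _⟩
          omega
        · intro h6
          exact absurd h6 (seqD hm _ _)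
    · constructor
      · rintro ⟨_, h6, _⟩
        exact absurd h6 hne
      · intro h6
        exfalso
        rcases h.sep' ⟨hu'.1, hu'.2.1⟩ ⟨h1.2.1, h1.2.2.1⟩ h1.1 hne with h7 | h7
        · rw [h6] at h7
          exact absurd h7 (not_lt.2 (min_le_left _ _))
        · rw [h6] at h7
          exact absurd h7 (not_lt.2 (le_max_left _ _))

theorem adj7 {u v : VD} (hu : u ∈ verts N tags len) (hv : v ∈ verts N tags len) (h0 : u.1 = 7) :
    Adj ρ u v ↔ lend α β s T ρ u ≤ cen α β s T v ∧ cen α β s T v ≤ rend α β s T ρ u := by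
  have hT := h.T0
  have ha0 := h.α0
  have hb0 := h.β0
  have hl : lend α β s T ρ u = min (s u.2.1 u.2.2) (s u.2.1 (u.2.2 + 1)) := by simp [lend, h0]
  have hr : rend α β s T ρ u = max (s u.2.1 u.2.2) (s u.2.1 (u.2.2 + 1)) := by simp [rend, h0]
  have ha : Adj ρ u v ↔ (v.2.1 = u.2.1 ∧ (((v.1 = 5 ∨ v.1 = 6) ∧
      (v.2.2 = u.2.2 ∨ v.2.2 = u.2.2 + 1)) ∨ (v.1 = 7 ∧ v.2.2 = u.2.2))) := by
    simp [Adj, h0]
  have hu' : u.2.1 ∈ tags ∧ u.2.2 < len u.2.1 := by
    rcases h.cases hu with h1 | h1 | h1 | h1 | h1 | h1 <;>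
      first | exact ⟨h1.2.1, h1.2.2.1⟩ | omega
  have c1 := h.bd _ hu'.1 _ hu'.2.le
  have c2 := h.bd _ hu'.1 _ (Nat.succ_le_of_lt hu'.2)
  simp only [Nat.succ_eq_add_one] at c2
  have m1 : - T < min (s u.2.1 u.2.2) (s u.2.1 (u.2.2 + 1)) := lt_min c1.1 c2.1
  have m2 : max (s u.2.1 u.2.2) (s u.2.1 (u.2.2 + 1)) < T := max_lt c1.2 c2.2
  rw [hl, hr, ha]
  rcases h.cases hv with h1 | h1 | h1 | h1 | h1 | h1
  · constructor
    · intro h2; omega
    · rintro ⟨h2, h3⟩; exfalso; linarith [h1.2.2.1, h1.2.2.2]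
  · constructor
    · intro h2; omega
    · rintro ⟨h2, h3⟩; exfalso; linarith [h1.2.2.1, h1.2.2.2]
  · constructor
    · intro h2; omega
    · rintro ⟨h2, h3⟩; exfalso; linarith [h1.2.2]
  · constructor
    · intro h2; omega
    · rintro ⟨h2, h3⟩; exfalso; linarith [h1.2.1]
  · constructor
    · intro h2; omega
    · rintro ⟨h2, h3⟩; exfalso; linarith [h1.2]
  · by_cases hne : v.2.1 = u.2.1
    · have hm := h.mono _ hu'.1
      rcases h1.1 with h5 | h5 | h5
      · rw [h.cen5 h5, hne, seqB hm]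
        simp [h5]
      · rw [h.cen6 h5, hne, seqB hm]
        simp [h5]
      · rw [h.cen7 h5, hne, seqC hm]
        simp [h5]
    · constructor
      · rintro ⟨h6, _⟩
        exact absurd h6 hne
      · rintro ⟨h6, h6'⟩
        exfalso
        rcases h.sep' hu' ⟨h1.2.1, h1.2.2.1⟩ h1.1 hne with h7 | h7
        · exact absurd h7 (not_lt.2 h6)
        · exact absurd h7 (not_lt.2 h6')

theorem adj {u v : VD} (hu : u ∈ verts N tags len) (hv : v ∈ verts N tags len) :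
    Adj ρ u v ↔ lend α β s T ρ u ≤ cen α β s T v ∧ cen α β s T v ≤ rend α β s T ρ u := by
  rcases h.cases hu with h1 | h1 | h1 | h1 | h1 | h1
  · exact h.adj0 hu hv h1.1
  · exact h.adj1 hu hv h1.1
  · exact h.adj2 hu hv h1.1
  · exact h.adj3 hu hv h1.1
  · exact h.adj4 hu hv h1.1
  · rcases h1.1 with h2 | h2 | h2
    · exact h.adj5 hu hv h2
    · exact h.adj6 hu hv h2
    · exact h.adj7 hu hv h2

theorem le {u : VD} (hu : u ∈ verts N tags len) : lend α β s T ρ u ≤ rend α β s T ρ u := by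
  have h1 : Adj ρ u u := by
    rcases h.cases hu with h1 | h1 | h1 | h1 | h1 | h1
    · simp [Adj, h1.1]
    · simp [Adj, h1.1]
    · simp [Adj, h1.1]
    · simp [Adj, h1.1]
    · simp [Adj, h1.1]
    · rcases h1.1 with h2 | h2 | h2 <;> simp [Adj, h2]
  have h2 := (h.adj hu hu).1 h1
  exact h2.1.trans h2.2

end Sys

end Pool.Agent.W983.Tol
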