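import Mathlib
import Pool.Agent.NPC.Sat2
import Pool.Agent.W983.Tol.Complete

set_option autoImplicit false
set_option linter.unusedSectionVars false

/-!
# The ruler digraph of a formula
-/

namespace Pool.Agent.W983.Tol

open Pool.Agent.NPC

/-- Formulas. -/
abbrev F3 : Type := List (Lit ℕ × Lit ℕ × Lit ℕ)

/-- The clause number `k`. -/
def cl (φ : F3) (k : ℕ) : Lit ℕ × Lit ℕ × Lit ℕ := φ.getD k ((false, 0), (false, 0), (false, 0))

/-- Does `v` occur without negation in the clause number `k`? -/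
def flag (φ : F3) (v k : ℕ) : Bool :=
  decide ((cl φ k).1 = (true, v) ∨ (cl φ k).2.1 = (true, v) ∨ (cl φ k).2.2 = (true, v))

/-- The three cross blocks of a clause. -/
def crossTags (φ : F3) (k : ℕ) : List Tag :=
  [((cl φ k).2.1.2, (cl φ k).1.2, k), ((cl φ k).2.2.2, (cl φ k).2.1.2, k),
    ((cl φ k).1.2, (cl φ k).2.2.2, k)]

/-- The names of the blocks. -/
def tagsOf (φ : F3) : List Tag :=
  (List.range (3 * φ.length)).map (fun v => (v, v, 0)) ++
    (List.range φ.length).flatMap (crossTags φ)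

/-- The lengths of the blocks. -/
def lenOf (φ : F3) (τ : Tag) : ℕ := if τ.1 = τ.2.1 then 2 * φ.length else 3

/-- The number of a marker. -/
def idx (K v k c : ℕ) : ℕ := 1 + 4 * (v * K + k) + c

/-- The reach of the vertices of the blocks. -/
def reach (φ : F3) (τ : Tag) (l : ℕ) : ℕ × ℕ :=
  if τ.1 = τ.2.1 then
    if (decide (l % 2 = 0) != flag φ τ.1 (l / 2)) = true then
      (idx φ.length τ.1 (l / 2) 1, idx φ.length τ.1 (l / 2) 1)
    else (idx φ.length τ.1 (l / 2) 3, idx φ.length τ.1 (l / 2) 3)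
  else
    if l = 0 then (idx φ.length τ.1 τ.2.2 2, idx φ.length τ.2.1 τ.2.2 3 + 1)
    else if l = 1 then (idx φ.length τ.1 τ.2.2 2, idx φ.length τ.2.1 τ.2.2 0)
    else (idx φ.length τ.1 τ.2.2 1, idx φ.length τ.2.1 τ.2.2 1)

/-- The number of markers. -/
def numOf (φ : F3) : ℕ := 4 * (3 * φ.length * φ.length) + 2

theorem cl_mem {φ : F3} {k : ℕ} (hk : k < φ.length) : cl φ k ∈ φ := by
  unfold cl
  rw [List.getD_eq_getElem _ _ hk]
  exact List.getElem_mem hk

theorem idx_lt {φ : F3} {v k c : ℕ} (hv : v < 3 * φ.length) (hk : k < φ.length) (hc : c ≤ 3) :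
    idx φ.length v k c + 1 < numOf φ := by
  unfold idx numOf
  have : v * φ.length + φ.length ≤ 3 * φ.length * φ.length := by
    calc v * φ.length + φ.length = (v + 1) * φ.length := by ring
      _ ≤ 3 * φ.length * φ.length := Nat.mul_le_mul_right _ hv
  omega

theorem main_mem {φ : F3} {v : ℕ} (hv : v < 3 * φ.length) : ((v, v, 0) : Tag) ∈ tagsOf φ := by
  unfold tagsOf
  rw [List.mem_append]
  left
  exact List.mem_map.2 ⟨v, List.mem_range.2 hv, rfl⟩

theorem cross_mem {φ : F3} {k : ℕ} (hk : k < φ.length) {τ : Tag} (h : τ ∈ crossTags φ k) :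
    τ ∈ tagsOf φ := by
  unfold tagsOf
  rw [List.mem_append]
  right
  exact List.mem_flatMap.2 ⟨k, List.mem_range.2 hk, h⟩

theorem reach_main_even {φ : F3} {v k : ℕ} (k' : ℕ) :
    reach φ (v, v, k') (2 * k) = if flag φ v k = true then
      (idx φ.length v k 2 + 1, idx φ.length v k 2 + 1) else
      (idx φ.length v k 0 + 1, idx φ.length v k 0 + 1) := by
  unfold reach
  have h1 : 2 * k / 2 = k := by omega
  have h2 : 2 * k % 2 = 0 := by omega
  simp only [h1, h2, if_true, decide_true]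
  cases flag φ v k <;> simp [idx]

theorem reach_main_odd {φ : F3} {v k : ℕ} (k' : ℕ) :
    reach φ (v, v, k') (2 * k + 1) = if flag φ v k = true then
      (idx φ.length v k 0 + 1, idx φ.length v k 0 + 1) else
      (idx φ.length v k 2 + 1, idx φ.length v k 2 + 1) := by
  unfold reach
  have h1 : (2 * k + 1) / 2 = k := by omega
  have h2 : (2 * k + 1) % 2 = 1 := by omega
  simp only [h1, h2, if_true]
  cases flag φ v k <;> simp [idx]

theorem reach_cross {φ : F3} {w v k : ℕ} (hne : w ≠ v) :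
    reach φ (w, v, k) 0 = (idx φ.length w k 1 + 1, idx φ.length v k 3 + 1) ∧
    reach φ (w, v, k) 1 = (idx φ.length w k 1 + 1, 4 * (v * φ.length + k) + 1) ∧
    reach φ (w, v, k) 2 = (idx φ.length w k 0 + 1, idx φ.length v k 0 + 1) := by
  unfold reach idx
  simp only [hne, if_false]
  refine ⟨?_, ?_, ?_⟩ <;> simp
  omega

theorem flag_spec {φ : F3} {k : ℕ} (hd : (cl φ k).1.2 ≠ (cl φ k).2.1.2 ∧
    (cl φ k).1.2 ≠ (cl φ k).2.2.2 ∧ (cl φ k).2.1.2 ≠ (cl φ k).2.2.2) :
    flag φ (cl φ k).1.2 k = (cl φ k).1.1 ∧ flag φ (cl φ k).2.1.2 k = (cl φ k).2.1.1 ∧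
      flag φ (cl φ k).2.2.2 k = (cl φ k).2.2.1 := by
  unfold flag
  generalize cl φ k = c at hd ⊢
  obtain ⟨⟨s1, v1⟩, ⟨s2, v2⟩, ⟨s3, v3⟩⟩ := c
  simp only at hd ⊢
  obtain ⟨d1, d2, d3⟩ := hd
  refine ⟨?_, ?_, ?_⟩
  · simp [Ne.symm d1, Ne.symm d2]
  · simp [d1, Ne.symm d3]
  · simp [d2, d3]

/-- A solution of the system of the rulers gives a satisfying assignment. -/
theorem sat_of_sound {φ : F3} (hd : Distinct3 φ) (hb : Bounded3 φ) (h0 : φ ≠ [])
    {α β : ℕ → ℝ} {t : Tag → ℕ → ℝ}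
    (h1 : ∀ τ ∈ tagsOf φ, (∀ l, l + 1 < lenOf φ τ → t τ l < t τ (l + 1)) ∨
        (∀ l, l + 1 < lenOf φ τ → t τ (l + 1) < t τ l))
    (h2 : ∀ τ ∈ tagsOf φ, ∀ l < lenOf φ τ, ∀ i j, reach φ τ l = (i + 1, j + 1) →
      i + 1 < numOf φ → j + 1 < numOf φ →
        β j - α (i + 1) < t τ l ∧ t τ l < β (j + 1) - α i) : SAT3 φ := by
  classical
  have hK : 0 < φ.length := List.length_pos_iff.2 h0
  refine ⟨fun v => decide (t (v, v, 0) 0 < t (v, v, 0) 1), ?_⟩
  intro c hc
  obtain ⟨k, hk, rfl⟩ := List.getElem_of_mem hc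
  have hcl : cl φ k = φ[k] := by
    unfold cl
    rw [List.getD_eq_getElem _ _ hk]
  rw [← hcl]
  have hdis := hd _ hc
  have hbd := hb _ hc
  rw [← hcl] at hdis hbd
  -- the main blocks
  have main : ∀ v σ, v < 3 * φ.length → flag φ v k = σ →
      ¬ (decide (t (v, v, 0) 0 < t (v, v, 0) 1) = σ) →
      α (idx φ.length v k 2) - α (idx φ.length v k 1) <
        β (idx φ.length v k 3) - β (idx φ.length v k 0) := by
    intro v σ hv hσ hne
    have hm := main_mem hv
    have hl : lenOf φ (v, v, 0) = 2 * φ.length := by simp [lenOf]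
    have w0 := h2 _ hm (2 * k) (by rw [hl]; omega)
    have w1 := h2 _ hm (2 * k + 1) (by rw [hl]; omega)
    rw [reach_main_even] at w0
    rw [reach_main_odd] at w1
    have i0 := idx_lt hv hk (show 0 ≤ 3 by norm_num)
    have i2 := idx_lt hv hk (show 2 ≤ 3 by norm_num)
    have e1 : idx φ.length v k 0 + 1 = idx φ.length v k 1 := rfl
    have e3 : idx φ.length v k 2 + 1 = idx φ.length v k 3 := rfl
    have o := h1 _ hm
    rw [hl] at o
    cases σ with
    | true =>
      rw [if_pos hσ] at w0 w1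
      have w0' := w0 _ _ rfl i2 i2
      have w1' := w1 _ _ rfl i0 i0
      rw [e3] at w0'
      rw [e1] at w1'
      have hn : ¬ t (v, v, 0) 0 < t (v, v, 0) 1 := by simpa using hne
      rcases o with o | o
      · exact absurd (o 0 (by omega)) hn
      · have := o (2 * k) (by omega)
        linarith [w0'.2, w1'.1]
    | false =>
      have hσ' : ¬ flag φ v k = true := by rw [hσ]; simp
      rw [if_neg hσ'] at w0 w1
      have w0' := w0 _ _ rfl i0 i0
      have w1' := w1 _ _ rfl i2 i2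
      rw [e1] at w0'
      rw [e3] at w1'
      have hn : t (v, v, 0) 0 < t (v, v, 0) 1 := by simpa using hne
      rcases o with o | o
      · have := o (2 * k) (by omega)
        linarith [w0'.1, w1'.2]
      · exact absurd (o 0 (by omega)) (not_lt.2 hn.le)
  -- the cross blocks
  have cross : ∀ w v, w < 3 * φ.length → v < 3 * φ.length → w ≠ v →
      ((w, v, k) : Tag) ∈ crossTags φ k →
      β (idx φ.length v k 3) - β (idx φ.length v k 0) <
        α (idx φ.length w k 2) - α (idx φ.length w k 1) := by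
    intro w v hw hv hne hmem
    have hm := cross_mem hk hmem
    have hl : lenOf φ (w, v, k) = 3 := by simp [lenOf, hne]
    obtain ⟨r0, r1, r2⟩ := reach_cross (φ := φ) (k := k) hne
    have i1 := idx_lt hw hk (show 1 ≤ 3 by norm_num)
    have i0 := idx_lt hw hk (show 0 ≤ 3 by norm_num)
    have j3 := idx_lt hv hk (show 3 ≤ 3 by norm_num)
    have j0 := idx_lt hv hk (show 0 ≤ 3 by norm_num)
    have w0 := h2 _ hm 0 (by rw [hl]; norm_num) _ _ r0 i1 j3
    have w1 := h2 _ hm 1 (by rw [hl]; norm_num) _ _ r1 i1 (by unfold idx at j0; omega)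
    have w2 := h2 _ hm 2 (by rw [hl]; norm_num) _ _ r2 i0 j0
    have e2 : idx φ.length w k 1 + 1 = idx φ.length w k 2 := rfl
    have e1 : idx φ.length w k 0 + 1 = idx φ.length w k 1 := rfl
    have e0 : 4 * (v * φ.length + k) + 1 = idx φ.length v k 0 := by unfold idx; omega
    rw [e2] at w0 w1
    rw [e1] at w2
    rw [e0] at w1
    have o := h1 _ hm
    rw [hl] at o
    rcases o with o | o
    · have := o 0 (by norm_num)
      norm_num at this
      linarith [w0.1, w1.2]
    · have := o 1 (by norm_num)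
      norm_num at this
      linarith [w2.1, w1.2]
  obtain ⟨f1, f2, f3⟩ := flag_spec hdis
  by_contra hcon
  push Not at hcon
  obtain ⟨n1, n2, n3⟩ := hcon
  have m1 := main _ _ hbd.1 f1 n1
  have m2 := main _ _ hbd.2.1 f2 n2
  have m3 := main _ _ hbd.2.2 f3 n3
  have c1 := cross (cl φ k).2.1.2 (cl φ k).1.2 hbd.2.1 hbd.1 (Ne.symm hdis.1) (by simp [crossTags])
  have c2 := cross (cl φ k).2.2.2 (cl φ k).2.1.2 hbd.2.2 hbd.2.1 (Ne.symm hdis.2.2)
    (by simp [crossTags])
  have c3 := cross (cl φ k).1.2 (cl φ k).2.2.2 hbd.1 hbd.2.2 hdis.2.1 (by simp [crossTags])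
  linarith

end Pool.Agent.W983.Tol
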