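import Mathlib
import Pool.Agent.W983.Tol.Sat

set_option autoImplicit false
set_option linter.unusedSectionVars false
set_option linter.unusedVariables false

/-!
# The positions of the markers for a satisfying assignment
-/

namespace Pool.Agent.W983.Tol

open Pool.Agent.NPC

theorem list_bound {X : Type} (f : X → ℝ) (l : List X) : ∃ C, ∀ x ∈ l, f x < C := by
  induction l with
  | nil => exact ⟨0, by simp⟩
  | cons a l ih =>
    obtain ⟨C, hC⟩ := ih
    refine ⟨max C (f a + 1), ?_⟩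
    intro x hx
    rcases List.mem_cons.1 hx with rfl | hx
    · exact (lt_add_one _).trans_le (le_max_right _ _)
    · exact (hC x hx).trans_le (le_max_left _ _)

/-- The hypotheses of the construction without the bounds. -/
structure Pre (N : ℕ) (tags : List Tag) (len : Tag → ℕ) (ρ : Tag → ℕ → ℕ × ℕ)
    (α β : ℕ → ℝ) (s : Tag → ℕ → ℝ) : Prop where
  N0 : 0 < N
  hα : ∀ i, i + 1 < N → α i < α (i + 1)
  hβ : ∀ i, i + 1 < N → β i < β (i + 1)
  win : ∀ τ ∈ tags, ∀ l < len τ, ∃ i j, ρ τ l = (i + 1, j + 1) ∧ i + 1 < N ∧ j + 1 < N ∧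
    β j - α (i + 1) < 2 * s τ l ∧ 2 * s τ l < β (j + 1) - α i
  mono : ∀ τ ∈ tags, StrictMono (s τ) ∨ StrictAnti (s τ)
  sep : ∀ τ ∈ tags, ∀ σ ∈ tags, τ ≠ σ → (∀ l ≤ len τ, ∀ l' ≤ len σ, s τ l < s σ l') ∨
    (∀ l ≤ len τ, ∀ l' ≤ len σ, s σ l' < s τ l)

theorem lt_of_step {N : ℕ} {α : ℕ → ℝ} (h : ∀ i, i + 1 < N → α i < α (i + 1)) (i j : ℕ)
    (hij : i < j) (hj : j < N) : α i < α j := by
  induction j with
  | zero => omega
  | succ j ih =>
    rcases Nat.lt_succ_iff_lt_or_eq.1 hij with h1 | rfl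
    · exact (ih h1 (by omega)).trans (h j hj)
    · exact h i hj

theorem Pre.toSys {N : ℕ} {tags : List Tag} {len : Tag → ℕ} {ρ : Tag → ℕ → ℕ × ℕ}
    {α β : ℕ → ℝ} {s : Tag → ℕ → ℝ} (h : Pre N tags len ρ α β s) :
    ∃ (α' β' : ℕ → ℝ) (T : ℝ), Sys N tags len ρ α' β' s T := by
  have hb : ∀ τ, ∃ C, ∀ l ∈ List.range (len τ + 1), |s τ l| < C := fun τ => list_bound _ _
  choose g hg using hb
  obtain ⟨C1, hC1⟩ := list_bound g tags
  obtain ⟨C2, hC2⟩ := list_bound (fun i => |α i|) (List.range N)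
  obtain ⟨C3, hC3⟩ := list_bound (fun i => |β i|) (List.range N)
  set T : ℝ := max C1 1 with hT
  set D : ℝ := max C2 C3 with hD
  have hD2 : ∀ i < N, |α i| < D := fun i hi =>
    (hC2 i (List.mem_range.2 hi)).trans_le (le_max_left _ _)
  have hD3 : ∀ i < N, |β i| < D := fun i hi =>
    (hC3 i (List.mem_range.2 hi)).trans_le (le_max_right _ _)
  have hD0 : 0 < D := (abs_nonneg _).trans_lt (hD2 0 h.N0)
  have hT0 : 0 < T := lt_of_lt_of_le one_pos (le_max_right _ _)
  refine ⟨fun i => 3 * T + 3 * D + α i, fun i => 3 * T + 3 * D + β i, T, ?_⟩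
  refine ⟨hT0, h.N0, ?_, ?_, ?_, ?_, ?_, ?_, ?_, h.mono, ?_, h.sep⟩
  · intro i j hij hj
    have := lt_of_step h.hα i j hij hj
    linarith
  · intro i j hij hj
    have := lt_of_step h.hβ i j hij hj
    linarith
  · have := abs_lt.1 (hD2 0 h.N0)
    linarith [this.1]
  · have := abs_lt.1 (hD3 0 h.N0)
    linarith [this.1]
  · intro i hi
    have h1 := abs_lt.1 (hD2 0 h.N0)
    have h2 := abs_lt.1 (hD2 i hi)
    linarith [h1.1, h2.2]
  · intro i hi
    have h1 := abs_lt.1 (hD3 0 h.N0)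
    have h2 := abs_lt.1 (hD3 i hi)
    linarith [h1.1, h2.2]
  · intro τ hτ l hl
    obtain ⟨i, j, h1, h2, h3, h4, h5⟩ := h.win τ hτ l hl
    exact ⟨i, j, h1, h2, h3, by linarith, by linarith⟩
  · intro τ hτ l hl
    have h1 := hg τ l (List.mem_range.2 (by omega))
    have h2 := hC1 τ hτ
    have h3 : |s τ l| < T := (h1.trans h2).trans_le (le_max_left _ _)
    exact abs_lt.1 h3

/-- The table of the lengths for a clause. -/
theorem table (x1 x2 x3 : Bool) (h : ¬ (x1 = true ∧ x2 = true ∧ x3 = true)) :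
    ∃ a1 a2 a3 b1 b2 b3 : ℤ,
      (0 ≤ a1 ∧ a1 ≤ 5) ∧ (0 ≤ a2 ∧ a2 ≤ 5) ∧ (0 ≤ a3 ∧ a3 ≤ 5) ∧
      (0 ≤ b1 ∧ b1 ≤ 5) ∧ (0 ≤ b2 ∧ b2 ≤ 5) ∧ (0 ≤ b3 ∧ b3 ≤ 5) ∧
      ((x1 = true → a1 < b1) ∧ (x1 = false → b1 < a1)) ∧
      ((x2 = true → a2 < b2) ∧ (x2 = false → b2 < a2)) ∧
      ((x3 = true → a3 < b3) ∧ (x3 = false → b3 < a3)) ∧
      b1 < a2 ∧ b2 < a3 ∧ b3 < a1 := by
  cases x1
  · refine ⟨5, 1, 3, 0, if x2 then 2 else 0, if x3 then 4 else 2, ?_⟩
    cases x2 <;> cases x3 <;> simp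
  · cases x2
    · refine ⟨3, 5, 1, 4, 0, if x3 then 2 else 0, ?_⟩
      cases x3 <;> simp
    · cases x3
      · refine ⟨1, 3, 5, 2, 4, 0, ?_⟩
        simp
      · simp at h

/-- The lengths for a clause number. -/
theorem exists_lengths {φ : F3} (hd : Distinct3 φ) {τ : ℕ → Bool}
    (hτ : ∀ c ∈ φ, τ c.1.2 = c.1.1 ∨ τ c.2.1.2 = c.2.1.1 ∨ τ c.2.2.2 = c.2.2.1) (k : ℕ) :
    ∃ a b : ℕ → ℤ, (∀ v, 0 ≤ a v ∧ a v ≤ 5) ∧ (∀ v, 0 ≤ b v ∧ b v ≤ 5) ∧
      (∀ v, (τ v ≠ flag φ v k → a v < b v) ∧ (τ v = flag φ v k → b v < a v)) ∧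
      (k < φ.length → ∀ t ∈ crossTags φ k, b t.2.1 < a t.1) := by
  classical
  by_cases hk : k < φ.length
  · have hdis := hd _ (cl_mem hk)
    have hsat := hτ _ (cl_mem hk)
    obtain ⟨f1, f2, f3⟩ := flag_spec hdis
    set v1 := (cl φ k).1.2 with hv1
    set v2 := (cl φ k).2.1.2 with hv2
    set v3 := (cl φ k).2.2.2 with hv3
    obtain ⟨a1, a2, a3, b1, b2, b3, ha1, ha2, ha3, hb1, hb2, hb3, s1, s2, s3, g1, g2, g3⟩ :=
      table (decide (τ v1 ≠ flag φ v1 k)) (decide (τ v2 ≠ flag φ v2 k))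
        (decide (τ v3 ≠ flag φ v3 k)) (by
          rw [f1, f2, f3]
          simp only [decide_eq_true_eq]
          tauto)
    simp only [decide_eq_true_eq, decide_eq_false_iff_not, not_not] at s1 s2 s3
    obtain ⟨d1, d2, d3⟩ := hdis
    refine ⟨fun v => if v = v1 then a1 else if v = v2 then a2 else if v = v3 then a3 else
        if τ v ≠ flag φ v k then 0 else 1,
      fun v => if v = v1 then b1 else if v = v2 then b2 else if v = v3 then b3 else
        if τ v ≠ flag φ v k then 1 else 0, ?_, ?_, ?_, ?_⟩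
    · intro v
      dsimp only
      split_ifs <;> first | assumption | norm_num
    · intro v
      dsimp only
      split_ifs <;> first | assumption | norm_num
    · intro v
      dsimp only
      split_ifs with e1 e2 e3 e4
      · rw [e1]; exact s1
      · rw [e2]; exact s2
      · rw [e3]; exact s3
      · exact ⟨fun _ => by norm_num, fun h => absurd h e4⟩
      · exact ⟨fun h => absurd h e4, fun _ => by norm_num⟩
    · intro _ t ht
      simp only [crossTags, List.mem_cons, List.not_mem_nil, or_false] at ht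
      rcases ht with rfl | rfl | rfl
      · simp only [← hv1, ← hv2]
        simpa [Ne.symm d1] using g1
      · simp only [← hv3, ← hv2]
        simpa [Ne.symm d1, Ne.symm d2, Ne.symm d3] using g2
      · simp only [← hv3, ← hv1]
        simpa [Ne.symm d2, Ne.symm d3] using g3
  · refine ⟨fun v => if τ v ≠ flag φ v k then 0 else 1,
      fun v => if τ v ≠ flag φ v k then 1 else 0, ?_, ?_, ?_, ?_⟩
    · intro v
      dsimp only
      split_ifs <;> norm_num
    · intro v
      dsimp only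
      split_ifs <;> norm_num
    · intro v
      dsimp only
      split_ifs with e4
      · exact ⟨fun _ => by norm_num, fun h => absurd h e4⟩
      · exact ⟨fun h => absurd h e4, fun _ => by norm_num⟩
    · intro h
      exact absurd h hk

/-- The rough position of the markers of `(v, k)`. -/
def apos (K v k : ℕ) : ℕ := v * ((3 * K + 2) * K) + (v + 1) * k

/-- The distance between different variables. -/
def Rr (K : ℕ) : ℕ := 6 * K * ((3 * K + 2) * K + K) + 1

/-- The offsets of the four markers of `(v, k)`. -/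
noncomputable def off (x : ℝ) (c : ℕ) : ℝ :=
  if c = 0 then 0 else if c = 1 then 1 else if c = 2 then 10 + 8 * x else 11 + 8 * x

/-- The position of the left markers. -/
noncomputable def posL (K : ℕ) (a : ℕ → ℕ → ℤ) (m : ℕ) : ℝ :=
  if m = 0 then -1 else 1000 * K * apos K ((m - 1) / 4 / K) ((m - 1) / 4 % K) +
    off (a ((m - 1) / 4 % K) ((m - 1) / 4 / K)) ((m - 1) % 4)

/-- The sign of a variable. -/
noncomputable def sgn (τ : ℕ → Bool) (v : ℕ) : ℝ := if τ v = true then 1 else -1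

/-- The position of the right markers. -/
noncomputable def posR (K : ℕ) (τ : ℕ → Bool) (b : ℕ → ℕ → ℤ) (m : ℕ) : ℝ :=
  if m = 0 then -1 else 1000 * K * (apos K ((m - 1) / 4 / K) ((m - 1) / 4 % K) +
    ((m - 1) / 4 / K : ℕ) * Rr K) +
    sgn τ ((m - 1) / 4 / K) * (100 * ((m - 1) / 4 % K : ℕ)) +
    off (b ((m - 1) / 4 % K) ((m - 1) / 4 / K)) ((m - 1) % 4)

section

variable {K : ℕ} {τ : ℕ → Bool} {a b : ℕ → ℕ → ℤ}

theorem dec_idx {v k c : ℕ} (hk : k < K) (hc : c < 4) :
    (idx K v k c - 1) / 4 / K = v ∧ (idx K v k c - 1) / 4 % K = k ∧ (idx K v k c - 1) % 4 = c := by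
  have h1 : idx K v k c - 1 = 4 * (v * K + k) + c := by unfold idx; omega
  have h2 : (idx K v k c - 1) / 4 = v * K + k := by rw [h1]; omega
  have h3 : (idx K v k c - 1) % 4 = c := by rw [h1]; omega
  refine ⟨?_, ?_, h3⟩
  · rw [h2, mul_comm, Nat.mul_add_div (by omega), Nat.div_eq_of_lt hk, add_zero]
  · rw [h2, mul_comm, Nat.mul_add_mod, Nat.mod_eq_of_lt hk]

theorem posL_idx {v k c : ℕ} (hk : k < K) (hc : c < 4) :
    posL K a (idx K v k c) = 1000 * K * apos K v k + off (a k v) c := by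
  obtain ⟨h1, h2, h3⟩ := dec_idx (v := v) hk hc
  unfold posL
  rw [if_neg (by unfold idx; omega), h1, h2, h3]

theorem posR_idx {v k c : ℕ} (hk : k < K) (hc : c < 4) :
    posR K τ b (idx K v k c) = 1000 * K * (apos K v k + v * Rr K) + sgn τ v * (100 * k) +
      off (b k v) c := by
  obtain ⟨h1, h2, h3⟩ := dec_idx (v := v) hk hc
  unfold posR
  rw [if_neg (by unfold idx; omega), h1, h2, h3]

theorem exists_idx (hK : 0 < K) {m : ℕ} (hm : 0 < m) :
    ∃ v k c, k < K ∧ c < 4 ∧ m = idx K v k c := by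
  refine ⟨(m - 1) / 4 / K, (m - 1) / 4 % K, (m - 1) % 4, Nat.mod_lt _ hK, Nat.mod_lt _ (by norm_num),
    ?_⟩
  unfold idx
  have h1 := Nat.div_add_mod ((m - 1) / 4) K
  rw [mul_comm] at h1
  rw [h1]
  omega

theorem sgn_cases (v : ℕ) : sgn τ v = 1 ∨ sgn τ v = -1 := by
  unfold sgn
  split_ifs <;> simp

theorem apos_succ (v k : ℕ) : apos K v (k + 1) = apos K v k + v + 1 := by
  unfold apos
  ring

theorem apos_next {v : ℕ} (hv : v < 3 * K) (hK : 0 < K) :
    apos K v (K - 1) + 1 ≤ apos K (v + 1) 0 := by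
  unfold apos
  obtain ⟨K', rfl⟩ : ∃ K', K = K' + 1 := ⟨K - 1, by omega⟩
  have : (v + 1) * K' ≤ 3 * (K' + 1) * K' := Nat.mul_le_mul_right _ (by omega)
  simp only [Nat.add_sub_cancel]
  nlinarith

/-- The next marker after the last marker of `(v, k)`. -/
theorem next_idx {v k : ℕ} (hk : k < K) : (k + 1 < K ∧ idx K v k 3 + 1 = idx K v (k + 1) 0) ∨
    (k + 1 = K ∧ idx K v k 3 + 1 = idx K (v + 1) 0 0) := by
  unfold idx
  rcases Nat.lt_or_ge (k + 1) K with h | h
  · left
    exact ⟨h, by ring⟩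
  · right
    have : k + 1 = K := by omega
    refine ⟨this, ?_⟩
    have : (v + 1) * K = v * K + (k + 1) := by rw [this]; ring
    omega

theorem v_lt {v k c : ℕ} (hk : k < K) (h : idx K v k c + 1 < 4 * (3 * K * K) + 2) :
    v < 3 * K ∨ (v = 3 * K ∧ k = 0 ∧ c = 0) := by
  unfold idx at h
  rcases Nat.lt_or_ge v (3 * K) with h1 | h1
  · exact Or.inl h1
  · right
    have h2 : 3 * K * K ≤ v * K := Nat.mul_le_mul_right _ h1
    omega

theorem posL_step (hK : 0 < K) (ha : ∀ k v, 0 ≤ a k v ∧ a k v ≤ 5) (i : ℕ)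
    (hi : i + 1 < 4 * (3 * K * K) + 2) : posL K a i < posL K a (i + 1) := by
  have hK1 : (1 : ℝ) ≤ K := by exact_mod_cast hK
  rcases Nat.eq_zero_or_pos i with rfl | h0
  · have : posL K a (0 + 1) = 0 := by
      have := posL_idx (a := a) (v := 0) (k := 0) (c := 0) hK (by norm_num)
      unfold idx at this
      simpa [apos, off] using this
    rw [this]
    simp [posL]
  · obtain ⟨v, k, c, hk, hc, rfl⟩ := exists_idx hK h0
    have hb1 : (0 : ℝ) ≤ a k v := by exact_mod_cast (ha k v).1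
    have hb2 : (a k v : ℝ) ≤ 5 := by exact_mod_cast (ha k v).2
    rcases Nat.lt_or_ge c 3 with h3 | h3
    · have e : idx K v k c + 1 = idx K v k (c + 1) := rfl
      rw [e, posL_idx hk hc, posL_idx hk (by omega)]
      have : off (a k v) c < off (a k v) (c + 1) := by
        unfold off
        interval_cases c <;> norm_num <;> linarith
      linarith
    · have hc3 : c = 3 := by omega
      subst hc3
      have hv : v < 3 * K := by
        rcases v_lt hk hi with h | h
        · exact h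
        · omega
      have ho : off (a k v) 3 = 11 + 8 * a k v := by simp [off]
      rcases next_idx (v := v) hk with ⟨h1, e⟩ | ⟨h1, e⟩
      · rw [e, posL_idx hk (by norm_num), posL_idx h1 (by norm_num), ho, apos_succ]
        have ho' : off (a (k + 1) v) 0 = 0 := by simp [off]
        rw [ho']
        push_cast
        have hv0 : (0 : ℝ) ≤ v := Nat.cast_nonneg v
        nlinarith
      · rw [e, posL_idx hk (by norm_num), posL_idx hK (by norm_num), ho]
        have ho' : off (a 0 (v + 1)) 0 = 0 := by simp [off]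
        rw [ho']
        have h2 := apos_next hv hK
        have h3 : k = K - 1 := by omega
        rw [← h3] at h2
        have h4 : (apos K v k : ℝ) + 1 ≤ apos K (v + 1) 0 := by exact_mod_cast h2
        nlinarith

theorem posR_step (hK : 0 < K) (hb : ∀ k v, 0 ≤ b k v ∧ b k v ≤ 5) (i : ℕ)
    (hi : i + 1 < 4 * (3 * K * K) + 2) : posR K τ b i < posR K τ b (i + 1) := by
  have hK1 : (1 : ℝ) ≤ K := by exact_mod_cast hK
  rcases Nat.eq_zero_or_pos i with rfl | h0
  · have : posR K τ b (0 + 1) = 0 := by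
      have := posR_idx (τ := τ) (b := b) (v := 0) (k := 0) (c := 0) hK (by norm_num)
      unfold idx at this
      simpa [apos, off] using this
    rw [this]
    simp [posR]
  · obtain ⟨v, k, c, hk, hc, rfl⟩ := exists_idx hK h0
    have hb1 : (0 : ℝ) ≤ b k v := by exact_mod_cast (hb k v).1
    have hb2 : (b k v : ℝ) ≤ 5 := by exact_mod_cast (hb k v).2
    rcases Nat.lt_or_ge c 3 with h3 | h3
    · have e : idx K v k c + 1 = idx K v k (c + 1) := rfl
      rw [e, posR_idx hk hc, posR_idx hk (by omega)]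
      have : off (b k v) c < off (b k v) (c + 1) := by
        unfold off
        interval_cases c <;> norm_num <;> linarith
      linarith
    · have hc3 : c = 3 := by omega
      subst hc3
      have hv : v < 3 * K := by
        rcases v_lt hk hi with h | h
        · exact h
        · omega
      have ho : off (b k v) 3 = 11 + 8 * b k v := by simp [off]
      rcases next_idx (v := v) hk with ⟨h1, e⟩ | ⟨h1, e⟩
      · rw [e, posR_idx hk (by norm_num), posR_idx h1 (by norm_num), ho, apos_succ]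
        have ho' : off (b (k + 1) v) 0 = 0 := by simp [off]
        rw [ho']
        push_cast
        have hv0 : (0 : ℝ) ≤ v := Nat.cast_nonneg v
        rcases sgn_cases (τ := τ) v with h | h <;> rw [h] <;> nlinarith
      · rw [e, posR_idx hk (by norm_num), posR_idx hK (by norm_num), ho]
        have ho' : off (b 0 (v + 1)) 0 = 0 := by simp [off]
        rw [ho']
        have h2 := apos_next hv hK
        have h3 : k = K - 1 := by omega
        rw [← h3] at h2
        have h4 : (apos K v k : ℝ) + 1 ≤ apos K (v + 1) 0 := by exact_mod_cast h2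
        have h5 : (k : ℝ) ≤ K := by exact_mod_cast hk.le
        have h6 : (0 : ℝ) ≤ k := Nat.cast_nonneg k
        have h7 : (0 : ℝ) ≤ Rr K := Nat.cast_nonneg _
        push_cast
        have h8 : (0 : ℝ) ≤ K * Rr K := mul_nonneg (by linarith) h7
        rcases sgn_cases (τ := τ) v with h | h <;> rw [h] <;> nlinarith

end

end Pool.Agent.W983.Tol
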