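import Mathlib
import Pool.Agent.W983.Tol.Pos

set_option autoImplicit false
set_option linter.unusedSectionVars false
set_option linter.unusedVariables false

/-!
# The positions of the vertices of the blocks for a satisfying assignment
-/

namespace Pool.Agent.W983.Tol

open Pool.Agent.NPC

/-- The rough position of a block. -/
def zed (K : ℕ) (t : Tag) : ℤ :=
  ((t.2.1 : ℤ) - t.1) * ((3 * K + 2) * K + t.2.2 : ℕ) + (t.2.1 : ℤ) * Rr K

/-- Twice the positions of the vertices of the main block of `v`. -/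
noncomputable def mainSeq (φ : F3) (τ : ℕ → Bool) (a b : ℕ → ℕ → ℤ) (v l : ℕ) : ℝ :=
  1000 * φ.length * (v * Rr φ.length : ℕ) + sgn τ v * (100 * (l / 2 : ℕ)) +
    (if (decide (l % 2 = 0) != flag φ v (l / 2)) = true then 0 else
      8 * ((b (l / 2) v : ℝ) - a (l / 2) v))

/-- Twice the positions of the vertices of the blocks. -/
noncomputable def blockSeq (φ : F3) (τ : ℕ → Bool) (a b : ℕ → ℕ → ℤ) (t : Tag) (l : ℕ) : ℝ :=
  if t.1 = t.2.1 then mainSeq φ τ a b t.1 l else
    1000 * φ.length * zed φ.length t + sgn τ t.2.1 * (100 * t.2.2) - 3 + 5 / 4 * l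

section

variable {φ : F3} {τ : ℕ → Bool} {a b : ℕ → ℕ → ℤ}

theorem mainSeq_even (v k : ℕ) : mainSeq φ τ a b v (2 * k) =
    1000 * φ.length * (v * Rr φ.length : ℕ) + sgn τ v * (100 * k) +
      (if flag φ v k = true then 8 * ((b k v : ℝ) - a k v) else 0) := by
  unfold mainSeq
  have h1 : 2 * k / 2 = k := by omega
  have h2 : 2 * k % 2 = 0 := by omega
  simp only [h1, h2, decide_true]
  cases flag φ v k <;> simp

theorem mainSeq_odd (v k : ℕ) : mainSeq φ τ a b v (2 * k + 1) =
    1000 * φ.length * (v * Rr φ.length : ℕ) + sgn τ v * (100 * k) +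
      (if flag φ v k = true then 0 else 8 * ((b k v : ℝ) - a k v)) := by
  unfold mainSeq
  have h1 : (2 * k + 1) / 2 = k := by omega
  have h2 : (2 * k + 1) % 2 = 1 := by omega
  simp only [h1, h2]
  cases flag φ v k <;> simp

variable (ha : ∀ k v, 0 ≤ a k v ∧ a k v ≤ 5) (hb : ∀ k v, 0 ≤ b k v ∧ b k v ≤ 5)
  (hs : ∀ k v, (τ v ≠ flag φ v k → a k v < b k v) ∧ (τ v = flag φ v k → b k v < a k v))

include ha hb in
theorem diff_le (k v : ℕ) : |8 * ((b k v : ℝ) - a k v)| ≤ 40 := by
  have h1 : (0 : ℝ) ≤ a k v := by exact_mod_cast (ha k v).1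
  have h2 : (a k v : ℝ) ≤ 5 := by exact_mod_cast (ha k v).2
  have h3 : (0 : ℝ) ≤ b k v := by exact_mod_cast (hb k v).1
  have h4 : (b k v : ℝ) ≤ 5 := by exact_mod_cast (hb k v).2
  rw [abs_le]
  constructor <;> linarith

include ha hb hs in
theorem mainSeq_mono (v : ℕ) : StrictMono (mainSeq φ τ a b v) ∨ StrictAnti (mainSeq φ τ a b v) := by
  have hd := fun k => abs_le.1 (diff_le ha hb k v)
  cases hτ : τ v with
  | true =>
    left
    have hsg : sgn τ v = 1 := by simp [sgn, hτ]
    refine strictMono_nat_of_lt_succ fun l => ?_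
    rcases Nat.even_or_odd' l with ⟨k, rfl | rfl⟩
    · rw [mainSeq_even, mainSeq_odd, hsg]
      have h1 := hs k v
      rw [hτ] at h1
      cases hf : flag φ v k with
      | true =>
        rw [hf] at h1
        have h2 : (b k v : ℝ) < a k v := by exact_mod_cast h1.2 rfl
        simp only [if_true]
        linarith
      | false =>
        rw [hf] at h1
        have h2 : (a k v : ℝ) < b k v := by exact_mod_cast h1.1 (by simp)
        simp only [Bool.false_eq_true, if_false]
        linarith
    · have e : 2 * k + 1 + 1 = 2 * (k + 1) := by ring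
      rw [e, mainSeq_odd, mainSeq_even, hsg]
      have h1 := hd k
      have h2 := hd (k + 1)
      push_cast
      split_ifs <;> linarith [h1.1, h1.2, h2.1, h2.2]
  | false =>
    right
    have hsg : sgn τ v = -1 := by simp [sgn, hτ]
    refine strictAnti_nat_of_succ_lt fun l => ?_
    rcases Nat.even_or_odd' l with ⟨k, rfl | rfl⟩
    · rw [mainSeq_even, mainSeq_odd, hsg]
      have h1 := hs k v
      rw [hτ] at h1
      cases hf : flag φ v k with
      | true =>
        rw [hf] at h1
        have h2 : (a k v : ℝ) < b k v := by exact_mod_cast h1.1 (by simp)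
        simp only [if_true]
        linarith
      | false =>
        rw [hf] at h1
        have h2 : (b k v : ℝ) < a k v := by exact_mod_cast h1.2 rfl
        simp only [Bool.false_eq_true, if_false]
        linarith
    · have e : 2 * k + 1 + 1 = 2 * (k + 1) := by ring
      rw [e, mainSeq_odd, mainSeq_even, hsg]
      have h1 := hd k
      have h2 := hd (k + 1)
      push_cast
      split_ifs <;> linarith [h1.1, h1.2, h2.1, h2.2]

/-- The tags have the expected form. -/
theorem tags_form {t : Tag} (hb3 : Bounded3 φ) (hd3 : Distinct3 φ) (ht : t ∈ tagsOf φ) :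
    (t.1 = t.2.1 ∧ t.2.2 = 0 ∧ t.1 < 3 * φ.length) ∨
      (t.1 ≠ t.2.1 ∧ t.1 < 3 * φ.length ∧ t.2.1 < 3 * φ.length ∧ t.2.2 < φ.length ∧
        t ∈ crossTags φ t.2.2) := by
  unfold tagsOf at ht
  rw [List.mem_append] at ht
  rcases ht with ht | ht
  · obtain ⟨v, hv, rfl⟩ := List.mem_map.1 ht
    exact Or.inl ⟨rfl, rfl, List.mem_range.1 hv⟩
  · obtain ⟨k, hk, ht⟩ := List.mem_flatMap.1 ht
    rw [List.mem_range] at hk
    right
    have hb' := hb3 _ (cl_mem hk)
    have hd' := hd3 _ (cl_mem hk)
    have ht' := ht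
    simp only [crossTags, List.mem_cons, List.not_mem_nil, or_false] at ht
    rcases ht with rfl | rfl | rfl
    · exact ⟨Ne.symm hd'.1, hb'.2.1, hb'.1, hk, ht'⟩
    · exact ⟨Ne.symm hd'.2.2, hb'.2.2, hb'.2.1, hk, ht'⟩
    · exact ⟨hd'.2.1, hb'.1, hb'.2.2, hk, ht'⟩

end

theorem zed_lt {K : ℕ} {w v k w' v' k' : ℕ} (hK : 0 < K) (hw : w < 3 * K) (hv : v < 3 * K)
    (hk : k < K) (hw' : w' < 3 * K) (hv' : v' < 3 * K) (hk' : k' < K) (h : v < v') :
    zed K (w, v, k) < zed K (w', v', k') := by
  unfold zed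
  simp only
  have b1 : ((v : ℤ) - w) * ((3 * K + 2) * K + k : ℕ) ≤ 3 * K * ((3 * K + 2) * K + K : ℕ) := by
    have h1 : (v : ℤ) - w ≤ 3 * K := by omega
    have h2 : (0 : ℤ) ≤ ((3 * K + 2) * K + k : ℕ) := Int.natCast_nonneg _
    have h3 : (((3 * K + 2) * K + k : ℕ) : ℤ) ≤ ((3 * K + 2) * K + K : ℕ) := by
      have : (3 * K + 2) * K + k ≤ (3 * K + 2) * K + K := by omega
      exact_mod_cast this
    calc ((v : ℤ) - w) * ((3 * K + 2) * K + k : ℕ) ≤ (3 * K) * ((3 * K + 2) * K + k : ℕ) :=
          mul_le_mul_of_nonneg_right h1 h2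
      _ ≤ _ := mul_le_mul_of_nonneg_left h3 (by positivity)
  have b2 : - (3 * K * ((3 * K + 2) * K + K : ℕ) : ℤ) ≤
      ((v' : ℤ) - w') * ((3 * K + 2) * K + k' : ℕ) := by
    have h1 : - (3 * K : ℤ) ≤ (v' : ℤ) - w' := by omega
    have h2 : (0 : ℤ) ≤ ((3 * K + 2) * K + k' : ℕ) := Int.natCast_nonneg _
    have h3 : (((3 * K + 2) * K + k' : ℕ) : ℤ) ≤ ((3 * K + 2) * K + K : ℕ) := by
      have : (3 * K + 2) * K + k' ≤ (3 * K + 2) * K + K := by omega
      exact_mod_cast this
    have h4 : (3 * K : ℤ) * ((3 * K + 2) * K + k' : ℕ) ≤ 3 * K * ((3 * K + 2) * K + K : ℕ) :=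
      mul_le_mul_of_nonneg_left h3 (by positivity)
    have h5 := mul_le_mul_of_nonneg_right h1 h2
    linarith
  have b3 : (v : ℤ) * Rr K + Rr K ≤ (v' : ℤ) * Rr K := by
    have h1 : (v : ℤ) + 1 ≤ v' := by omega
    have h2 : (0 : ℤ) ≤ Rr K := Int.natCast_nonneg _
    nlinarith
  have b4 : (Rr K : ℤ) = 6 * K * ((3 * K + 2) * K + K : ℕ) + 1 := by
    unfold Rr
    push_cast
    ring
  linarith

theorem prod_inj {K x x' k k' : ℕ} (hx : 0 < x) (hx3 : x < 3 * K) (hx3' : x' < 3 * K)
    (hk : k < K) (hk' : k' < K)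
    (h : x * ((3 * K + 2) * K + k) = x' * ((3 * K + 2) * K + k')) : x = x' ∧ k = k' := by
  have key : ∀ y y' j j' : ℕ, y < 3 * K → j < K → y < y' →
      y * ((3 * K + 2) * K + j) < y' * ((3 * K + 2) * K + j') := by
    intro y y' j j' hy hj hlt
    have h1 : y * j ≤ 3 * K * K := Nat.mul_le_mul hy.le hj.le
    have h2 : (y + 1) * ((3 * K + 2) * K) ≤ y' * ((3 * K + 2) * K + j') :=
      Nat.mul_le_mul hlt (Nat.le_add_right _ _)
    have h3 : 0 < K := by omega
    nlinarith
  rcases lt_trichotomy x x' with h1 | h1 | h1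
  · exact absurd h (key x x' k k' hx3 hk h1).ne
  · subst h1
    refine ⟨rfl, ?_⟩
    have := Nat.eq_of_mul_eq_mul_left hx h
    omega
  · exact absurd h (key x' x k' k hx3' hk' h1).ne'

theorem zed_inj {K : ℕ} {w v k w' v' k' : ℕ} (hK : 0 < K) (hw : w < 3 * K) (hv : v < 3 * K)
    (hk : k < K) (hw' : w' < 3 * K) (hv' : v' < 3 * K) (hk' : k' < K) (h1 : w = v → k = 0)
    (h1' : w' = v' → k' = 0) (h : zed K (w, v, k) = zed K (w', v', k')) :
    w = w' ∧ v = v' ∧ k = k' := by
  rcases lt_trichotomy v v' with h2 | h2 | h2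
  · exact absurd h (zed_lt hK hw hv hk hw' hv' hk' h2).ne
  · subst h2
    unfold zed at h
    simp only at h
    have h3 : ((v : ℤ) - w) * ((3 * K + 2) * K + k : ℕ) =
      ((v : ℤ) - w') * ((3 * K + 2) * K + k' : ℕ) := by linarith
    have hM : ∀ j : ℕ, (0 : ℤ) < ((3 * K + 2) * K + j : ℕ) := by
      intro j
      have : 0 < (3 * K + 2) * K + j := by positivity
      exact_mod_cast this
    rcases lt_trichotomy w v with h4 | h4 | h4
    · -- positive
      have h5 : w' < v := by
        by_contra hcon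
        have h6 : ((v : ℤ) - w') ≤ 0 := by omega
        have h7 : (0 : ℤ) < (v : ℤ) - w := by omega
        have h8 := mul_pos h7 (hM k)
        have h9 := mul_nonpos_iff.2 (Or.inr ⟨h6, (hM k').le⟩)
        linarith
      have h6 : (v - w) * ((3 * K + 2) * K + k) = (v - w') * ((3 * K + 2) * K + k') := by
        zify [h4.le, h5.le]
        push_cast at h3
        exact h3
      obtain ⟨h7, h8⟩ := prod_inj (by omega) (by omega) (by omega) hk hk' h6
      omega
    · subst h4
      have h5 : (w : ℤ) - w' = 0 := by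
        rcases mul_eq_zero.1 (show ((w : ℤ) - w') * ((3 * K + 2) * K + k' : ℕ) = 0 by
          rw [← h3]; simp) with h6 | h6
        · exact h6
        · exact absurd h6 (hM k').ne'
      have h6 : w' = w := by omega
      subst h6
      exact ⟨rfl, rfl, (h1 rfl).trans (h1' rfl).symm⟩
    · have h5 : v < w' := by
        by_contra hcon
        have h6 : 0 ≤ ((v : ℤ) - w') := by omega
        have h7 : (0 : ℤ) < (w : ℤ) - v := by omega
        have h8 := mul_pos h7 (hM k)
        have h9 := mul_nonneg h6 (hM k').le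
        linarith
      have h6 : (w - v) * ((3 * K + 2) * K + k) = (w' - v) * ((3 * K + 2) * K + k') := by
        zify [h4.le, h5.le]
        push_cast at h3
        linarith
      obtain ⟨h7, h8⟩ := prod_inj (by omega) (by omega) (by omega) hk hk' h6
      omega
  · exact absurd h (zed_lt hK hw' hv' hk' hw hv hk h2).ne'

section

variable {φ : F3} {τ : ℕ → Bool} {a b : ℕ → ℕ → ℤ}

theorem zed_main (v k : ℕ) : (zed φ.length (v, v, k) : ℝ) = (v * Rr φ.length : ℕ) := by
  unfold zed
  push_cast
  ring

/-- All vertices of a block are near its rough position. -/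
theorem near (hb3 : Bounded3 φ) (hd3 : Distinct3 φ) (h0 : φ ≠ [])
    (ha : ∀ k v, 0 ≤ a k v ∧ a k v ≤ 5) (hb : ∀ k v, 0 ≤ b k v ∧ b k v ≤ 5)
    {t : Tag} (ht : t ∈ tagsOf φ) {l : ℕ} (hl : l ≤ lenOf φ t) :
    |blockSeq φ τ a b t l - 1000 * φ.length * zed φ.length t| ≤ 100 * φ.length + 40 := by
  have hK : 0 < φ.length := List.length_pos_iff.2 h0
  have hK1 : (1 : ℝ) ≤ φ.length := by exact_mod_cast hK
  rcases tags_form hb3 hd3 ht with ⟨h1, h2, h3⟩ | ⟨h1, h2, h3, h4, _⟩
  · obtain ⟨w, v, k⟩ := t
    simp only at h1 h2 h3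
    subst h1
    subst h2
    have hl' : l ≤ 2 * φ.length := by simpa [lenOf] using hl
    rw [zed_main]
    unfold blockSeq mainSeq
    simp only [if_true]
    have hd := abs_le.1 (diff_le ha hb (l / 2) w)
    have h5 : ((l / 2 : ℕ) : ℝ) ≤ φ.length := by
      have : l / 2 ≤ φ.length := by omega
      exact_mod_cast this
    have h6 : (0 : ℝ) ≤ ((l / 2 : ℕ) : ℝ) := Nat.cast_nonneg _
    rw [abs_le]
    rcases sgn_cases (τ := τ) w with h | h <;> rw [h] <;> split_ifs <;>
      constructor <;> linarith [hd.1, hd.2]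
  · obtain ⟨w, v, k⟩ := t
    simp only at h1 h2 h3 h4
    have hl' : l ≤ 3 := by simpa [lenOf, h1] using hl
    unfold blockSeq
    simp only [h1, if_false]
    have h5 : (k : ℝ) ≤ φ.length := by exact_mod_cast h4.le
    have h6 : (0 : ℝ) ≤ (k : ℝ) := Nat.cast_nonneg _
    have h7 : (l : ℝ) ≤ 3 := by exact_mod_cast hl'
    have h8 : (0 : ℝ) ≤ (l : ℝ) := Nat.cast_nonneg _
    rw [abs_le]
    rcases sgn_cases (τ := τ) v with h | h <;> rw [h] <;> constructor <;> linarith

theorem pre_of_sat (hb3 : Bounded3 φ) (hd3 : Distinct3 φ) (h0 : φ ≠ [])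
    (ha : ∀ k v, 0 ≤ a k v ∧ a k v ≤ 5) (hb : ∀ k v, 0 ≤ b k v ∧ b k v ≤ 5)
    (hs : ∀ k v, (τ v ≠ flag φ v k → a k v < b k v) ∧ (τ v = flag φ v k → b k v < a k v))
    (hc : ∀ k < φ.length, ∀ t ∈ crossTags φ k, b k t.2.1 < a k t.1) :
    Pre (numOf φ) (tagsOf φ) (lenOf φ) (reach φ) (posL φ.length a) (posR φ.length τ b)
      (fun t l => blockSeq φ τ a b t l / 2) := by
  have hK : 0 < φ.length := List.length_pos_iff.2 h0
  have hK1 : (1 : ℝ) ≤ φ.length := by exact_mod_cast hK
  refine ⟨by unfold numOf; omega, posL_step hK ha, posR_step hK hb, ?_, ?_, ?_⟩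
  · intro t ht l hl
    rcases tags_form hb3 hd3 ht with ⟨h1, h2, h3⟩ | ⟨h1, h2, h3, h4, h5⟩
    · obtain ⟨w, v, k0⟩ := t
      simp only at h1 h2 h3
      subst h1
      subst h2
      have hl' : l < 2 * φ.length := by simpa [lenOf] using hl
      obtain ⟨k, hk⟩ : ∃ k, l = 2 * k ∨ l = 2 * k + 1 := by
        rcases Nat.even_or_odd' l with ⟨k, h⟩
        exact ⟨k, h⟩
      have hkK : k < φ.length := by omega
      have i0 := idx_lt h3 hkK (show 0 ≤ 3 by norm_num)
      have i2 := idx_lt h3 hkK (show 2 ≤ 3 by norm_num)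
      have l0 := posL_idx (a := a) (v := w) hkK (show 0 < 4 by norm_num)
      have l1 := posL_idx (a := a) (v := w) hkK (show 1 < 4 by norm_num)
      have l2 := posL_idx (a := a) (v := w) hkK (show 2 < 4 by norm_num)
      have l3 := posL_idx (a := a) (v := w) hkK (show 3 < 4 by norm_num)
      have r0 := posR_idx (τ := τ) (b := b) (v := w) hkK (show 0 < 4 by norm_num)
      have r1 := posR_idx (τ := τ) (b := b) (v := w) hkK (show 1 < 4 by norm_num)
      have r2 := posR_idx (τ := τ) (b := b) (v := w) hkK (show 2 < 4 by norm_num)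
      have r3 := posR_idx (τ := τ) (b := b) (v := w) hkK (show 3 < 4 by norm_num)
      have e1 : idx φ.length w k 0 + 1 = idx φ.length w k 1 := rfl
      have e3 : idx φ.length w k 2 + 1 = idx φ.length w k 3 := rfl
      simp only [off] at l0 l1 l2 l3 r0 r1 r2 r3
      norm_num at l0 l1 l2 l3 r0 r1 r2 r3
      have B : ∀ x : ℝ, x = 1000 * φ.length * (w * Rr φ.length : ℕ) + sgn τ w * (100 * k) →
          posR φ.length τ b (idx φ.length w k 0) - posL φ.length a (idx φ.length w k 0 + 1) < x ∧
          x < posR φ.length τ b (idx φ.length w k 0 + 1) -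
            posL φ.length a (idx φ.length w k 0) := by
        intro x hx
        rw [e1, l0, l1, r0, r1, hx]
        push_cast
        constructor <;> linarith
      have C : ∀ x : ℝ, x = 1000 * φ.length * (w * Rr φ.length : ℕ) + sgn τ w * (100 * k) +
            8 * ((b k w : ℝ) - a k w) →
          posR φ.length τ b (idx φ.length w k 2) - posL φ.length a (idx φ.length w k 2 + 1) < x ∧
          x < posR φ.length τ b (idx φ.length w k 2 + 1) -
            posL φ.length a (idx φ.length w k 2) := by
        intro x hx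
        rw [e3, l2, l3, r2, r3, hx]
        push_cast
        constructor <;> linarith
      rcases hk with rfl | rfl
      · rw [reach_main_even]
        have hv : 2 * (blockSeq φ τ a b (w, w, 0) (2 * k) / 2) = mainSeq φ τ a b w (2 * k) := by
          simp only [blockSeq, if_true]
          ring
        rw [mainSeq_even] at hv
        cases hf : flag φ w k with
        | true =>
          rw [hf] at hv
          simp only [if_true] at hv ⊢
          obtain ⟨c1, c2⟩ := C _ hv
          exact ⟨_, _, rfl, i2, i2, c1, c2⟩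
        | false =>
          rw [hf] at hv
          simp only [Bool.false_eq_true, if_false, add_zero] at hv ⊢
          obtain ⟨c1, c2⟩ := B _ hv
          exact ⟨_, _, rfl, i0, i0, c1, c2⟩
      · rw [reach_main_odd]
        have hv : 2 * (blockSeq φ τ a b (w, w, 0) (2 * k + 1) / 2) =
            mainSeq φ τ a b w (2 * k + 1) := by
          simp only [blockSeq, if_true]
          ring
        rw [mainSeq_odd] at hv
        cases hf : flag φ w k with
        | true =>
          rw [hf] at hv
          simp only [if_true, add_zero] at hv ⊢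
          obtain ⟨c1, c2⟩ := B _ hv
          exact ⟨_, _, rfl, i0, i0, c1, c2⟩
        | false =>
          rw [hf] at hv
          simp only [Bool.false_eq_true, if_false] at hv ⊢
          obtain ⟨c1, c2⟩ := C _ hv
          exact ⟨_, _, rfl, i2, i2, c1, c2⟩
    · obtain ⟨w, v, k⟩ := t
      simp only at h1 h2 h3 h4 h5
      have hl' : l < 3 := by simpa [lenOf, h1] using hl
      obtain ⟨q0, q1, q2⟩ := reach_cross (φ := φ) (k := k) h1
      have hlt := hc k h4 _ h5
      simp only at hlt
      have hlt' : (b k v : ℝ) + 1 ≤ a k w := by exact_mod_cast hlt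
      have ha0 : (0 : ℝ) ≤ a k w := by exact_mod_cast (ha k w).1
      have i1 := idx_lt h2 h4 (show 1 ≤ 3 by norm_num)
      have i0 := idx_lt h2 h4 (show 0 ≤ 3 by norm_num)
      have j3 := idx_lt h3 h4 (show 3 ≤ 3 by norm_num)
      have j0 := idx_lt h3 h4 (show 0 ≤ 3 by norm_num)
      have l0 := posL_idx (a := a) (v := w) h4 (show 0 < 4 by norm_num)
      have l1 := posL_idx (a := a) (v := w) h4 (show 1 < 4 by norm_num)
      have l2 := posL_idx (a := a) (v := w) h4 (show 2 < 4 by norm_num)
      have r0 := posR_idx (τ := τ) (b := b) (v := v) h4 (show 0 < 4 by norm_num)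
      have r1 := posR_idx (τ := τ) (b := b) (v := v) h4 (show 1 < 4 by norm_num)
      have r3 := posR_idx (τ := τ) (b := b) (v := v) h4 (show 3 < 4 by norm_num)
      simp only [off] at l0 l1 l2 r0 r1 r3
      norm_num at l0 l1 l2 r0 r1 r3
      have e2 : idx φ.length w k 1 + 1 = idx φ.length w k 2 := rfl
      have e1 : idx φ.length w k 0 + 1 = idx φ.length w k 1 := rfl
      have e1' : idx φ.length v k 0 + 1 = idx φ.length v k 1 := rfl
      have e0 : 4 * (v * φ.length + k) + 1 = idx φ.length v k 0 := by unfold idx; omega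
      -- the rough position
      have hz : (1000 * φ.length * zed φ.length (w, v, k) : ℝ) =
          1000 * φ.length * (apos φ.length v k + v * Rr φ.length) -
            1000 * φ.length * apos φ.length w k := by
        unfold zed apos
        push_cast
        ring
      have hv : ∀ l, 2 * (blockSeq φ τ a b (w, v, k) l / 2) =
          1000 * φ.length * zed φ.length (w, v, k) + sgn τ v * (100 * k) - 3 + 5 / 4 * l := by
        intro l
        simp [blockSeq, h1]
        ring
      rw [hz] at hv
      have hl3 : l = 0 ∨ l = 1 ∨ l = 2 := by omega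
      rcases hl3 with rfl | rfl | rfl
      · refine ⟨_, _, q0, i1, j3, ?_, ?_⟩
        · rw [hv, e2, l2, r3]
          push_cast
          linarith
        · have hm := lt_of_step (posR_step (τ := τ) hK hb) (idx φ.length v k 0)
            (idx φ.length v k 3 + 1) (by unfold idx; omega) (by unfold numOf at j3; exact j3)
          rw [hv, l1]
          rw [r0] at hm
          push_cast
          linarith
      · refine ⟨_, _, q1, i1, by unfold idx at j0; omega, ?_, ?_⟩
        · have hm := lt_of_step (posR_step (τ := τ) hK hb) (4 * (v * φ.length + k))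
            (idx φ.length v k 0) (by unfold idx; omega)
            (by unfold numOf at j0; omega)
          rw [hv, e2, l2]
          rw [r0] at hm
          push_cast
          linarith
        · rw [hv, e0, l1, r0]
          push_cast
          linarith
      · refine ⟨_, _, q2, i0, j0, ?_, ?_⟩
        · rw [hv, e1, l1, r0]
          push_cast
          linarith
        · rw [hv, e1', l0, r1]
          push_cast
          linarith
  · intro t ht
    have key : StrictMono (blockSeq φ τ a b t) ∨ StrictAnti (blockSeq φ τ a b t) := by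
      by_cases h1 : t.1 = t.2.1
      · have : blockSeq φ τ a b t = mainSeq φ τ a b t.1 := by
          funext l
          simp [blockSeq, h1]
        rw [this]
        exact mainSeq_mono ha hb hs _
      · left
        refine strictMono_nat_of_lt_succ fun l => ?_
        simp only [blockSeq, h1, if_false]
        push_cast
        linarith
    rcases key with h | h
    · left
      exact fun x y hxy => by
        have := h hxy
        simp only
        linarith
    · right
      exact fun x y hxy => by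
        have := h hxy
        simp only
        linarith
  · intro t ht σ hσ hne
    have key : ∀ t ∈ tagsOf φ, ∀ σ ∈ tagsOf φ, zed φ.length t < zed φ.length σ →
        ∀ l ≤ lenOf φ t, ∀ l' ≤ lenOf φ σ, blockSeq φ τ a b t l / 2 < blockSeq φ τ a b σ l' / 2 := by
      intro t ht σ hσ hlt l hl l' hl'
      have n1 := abs_le.1 (near (τ := τ) hb3 hd3 h0 ha hb ht hl)
      have n2 := abs_le.1 (near (τ := τ) hb3 hd3 h0 ha hb hσ hl')
      have h1 : (zed φ.length t : ℝ) + 1 ≤ zed φ.length σ := by exact_mod_cast hlt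
      have h2 : (1000 * φ.length * zed φ.length t : ℝ) + 1000 * φ.length ≤
          1000 * φ.length * zed φ.length σ := by nlinarith
      linarith [n1.1, n1.2, n2.1, n2.2]
    rcases lt_trichotomy (zed φ.length t) (zed φ.length σ) with h | h | h
    · left
      exact key t ht σ hσ h
    · exfalso
      apply hne
      obtain ⟨w, v, k⟩ := t
      obtain ⟨w', v', k'⟩ := σ
      have f : ∀ {w v k : ℕ}, ((w, v, k) : Tag) ∈ tagsOf φ →
          w < 3 * φ.length ∧ v < 3 * φ.length ∧ k < φ.length ∧ (w = v → k = 0) := by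
        intro w v k ht
        rcases tags_form hb3 hd3 ht with ⟨h1, h2, h3⟩ | ⟨h1, h2, h3, h4, h5⟩
        · simp only at h1 h2 h3
          exact ⟨h3, h1 ▸ h3, by omega, fun _ => h2⟩
        · simp only at h1 h2 h3 h4
          exact ⟨h2, h3, h4, fun h => absurd h h1⟩
      obtain ⟨f1, f2, f3, f4⟩ := f ht
      obtain ⟨g1, g2, g3, g4⟩ := f hσ
      obtain ⟨rfl, rfl, rfl⟩ := zed_inj hK f1 f2 f3 g1 g2 g3 f4 g4 h
      rfl
    · right
      intro l hl l' hl'
      exact key σ hσ t ht h l' hl' l hl

/-- A satisfying assignment gives a solution of the system. -/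
theorem sys_of_sat (hb3 : Bounded3 φ) (hd3 : Distinct3 φ) (h0 : φ ≠ []) (h : SAT3 φ) :
    ∃ (α β : ℕ → ℝ) (s : Tag → ℕ → ℝ) (T : ℝ),
      Sys (numOf φ) (tagsOf φ) (lenOf φ) (reach φ) α β s T := by
  obtain ⟨τ, hτ⟩ := h
  choose a b h1 h2 h3 h4 using exists_lengths hd3 hτ
  obtain ⟨α, β, T, hS⟩ := (pre_of_sat (τ := τ) hb3 hd3 h0 h1 h2 h3 h4).toSys
  exact ⟨α, β, _, T, hS⟩

end

end Pool.Agent.W983.Tol
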