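import Mathlib
import Pool.Agent.W983.Tol.Rep
import Pool.Agent.W983.Tol.Seq

set_option autoImplicit false

/-!
# The reduction: correctness
-/

namespace Pool.Agent.W983.Tol

open Pool.Agent.NPC

/-- The vertices. -/
def vl (φ : F3) : List VD := verts (numOf φ) (tagsOf φ) (lenOf φ)

/-- The arcs. -/
def ab (φ : F3) (u v : VD) : Bool := decide (Adj (reach φ) u v)

/-- The digraph of a formula. -/
def red (φ : F3) : Dig := mat (vl φ) (ab φ)

/-- The reversed digraph of a formula. -/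
def redT (φ : F3) : Dig := mat (vl φ) (fun u v => ab φ v u)

theorem numOf_pos (φ : F3) : 0 < numOf φ := by
  unfold numOf
  omega

theorem rep_of_sat {φ : F3} (hd : Distinct3 φ) (hb : Bounded3 φ) (h0 : φ ≠ []) (h : SAT3 φ) :
    Rep {x // x ∈ vl φ} (fun x y => ab φ x.1 y.1 = true) Len.arbitrary Core.point
      Tolerance.tolerance := by
  obtain ⟨α, β, s, T, hS⟩ := sys_of_sat hb hd h0 h
  have hc : ∀ u, lend α β s T (reach φ) u + rend α β s T (reach φ) u = 2 * cen α β s T u := by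
    intro u
    have := cen_eq α β s T (reach φ) u
    linarith
  have hmem : ∀ v : {x // x ∈ vl φ}, cen α β s T v.1 ∈
      Set.Icc (lend α β s T (reach φ) v.1) (rend α β s T (reach φ) v.1) := by
    intro v
    have h1 := hc v.1
    have h2 := hS.le v.2
    exact ⟨by linarith, by linarith⟩
  refine ⟨fun v => lend α β s T (reach φ) v.1, fun v => rend α β s T (reach φ) v.1,
    fun v => cen α β s T v.1, fun v => cen α β s T v.1, ⟨hmem, hmem, fun x y => ?_⟩, trivial,
    fun v => rfl, fun v => ?_⟩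
  · unfold ab
    rw [decide_eq_true_iff]
    exact hS.adj x.2 y.2
  · have := hc v.1
    simp only
    linarith

theorem sat_of_rep {φ : F3} (hd : Distinct3 φ) (hb : Bounded3 φ) (h0 : φ ≠ [])
    (h : Rep {x // x ∈ vl φ} (fun x y => ab φ x.1 y.1 = true) Len.arbitrary Core.arbitrary
      Tolerance.tolerance) : SAT3 φ := by
  classical
  obtain ⟨L, R, p, q, h, _, _, ht⟩ := h
  have ext : ∀ f : {x // x ∈ vl φ} → ℝ, ∃ g : VD → ℝ, ∀ (u : VD) (hu : u ∈ vl φ),
      g u = f ⟨u, hu⟩ := by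
    intro f
    refine ⟨fun u => if hu : u ∈ vl φ then f ⟨u, hu⟩ else 0, fun u hu => ?_⟩
    simp [hu]
  obtain ⟨L', hL⟩ := ext L
  obtain ⟨R', hR⟩ := ext R
  obtain ⟨p', hp⟩ := ext p
  obtain ⟨q', hq⟩ := ext q
  have H : ∀ u ∈ verts (numOf φ) (tagsOf φ) (lenOf φ), ∀ v ∈ verts (numOf φ) (tagsOf φ) (lenOf φ),
      (Adj (reach φ) u v ↔ L' u ≤ q' v ∧ p' v ≤ R' u) := by
    intro u hu v hv
    rw [hL u hu, hR u hu, hp v hv, hq v hv]
    have := h.arc_iff ⟨u, hu⟩ ⟨v, hv⟩
    unfold ab at this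
    rw [decide_eq_true_iff] at this
    exact this
  obtain ⟨α, β, t, h1, h2⟩ := sound H (numOf_pos φ) (fun u hu => by
    have h3 : p ⟨u, hu⟩ - L ⟨u, hu⟩ = R ⟨u, hu⟩ - q ⟨u, hu⟩ := ht ⟨u, hu⟩
    rw [hL u hu, hR u hu, hp u hu, hq u hu]
    linarith)
  exact sat_of_sound hd hb h0 h1 h2

theorem red_sat {φ : F3} (hd : Distinct3 φ) (hb : Bounded3 φ) (h0 : φ ≠ []) (h : SAT3 φ) :
    InClass Len.arbitrary Core.point Tolerance.tolerance (red φ) :=
  (inClass_mat _ _ _ _ _).2 (rep_of_sat hd hb h0 h)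

theorem sat_red {φ : F3} (hd : Distinct3 φ) (hb : Bounded3 φ) (h0 : φ ≠ [])
    (h : InClass Len.arbitrary Core.arbitrary Tolerance.tolerance (red φ)) : SAT3 φ :=
  sat_of_rep hd hb h0 ((inClass_mat _ _ _ _ _).1 h)

theorem finite_vl (φ : F3) : Finite {x // x ∈ vl φ} := (List.finite_toSet (vl φ)).to_subtype

theorem redT_sat {φ : F3} (hd : Distinct3 φ) (hb : Bounded3 φ) (h0 : φ ≠ []) (h : SAT3 φ) :
    InClass Len.unit Core.arbitrary Tolerance.tolerance (redT φ) := by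
  haveI := finite_vl φ
  exact (inClass_mat _ _ _ _ _).2 (rep_of_sat hd hb h0 h).reverse

theorem sat_redT {φ : F3} (hd : Distinct3 φ) (hb : Bounded3 φ) (h0 : φ ≠ [])
    (h : InClass Len.arbitrary Core.arbitrary Tolerance.tolerance (redT φ)) : SAT3 φ := by
  haveI := finite_vl φ
  exact sat_of_rep hd hb h0 ((inClass_mat _ _ _ _ _).1 h).reverse

end Pool.Agent.W983.Tol
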