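import Mathlib
import Pool.Agent.W983.Tol.Red
import Pool.Agent.NPC.Num

set_option autoImplicit false
set_option linter.unusedSectionVars false

/-!
# The reduction is computable in polynomial time
-/

namespace Pool.Agent.W983.Tol

open Pool.Agent.NPC

section

variable {α : Type} [TEnc α]

theorem c_poly (n : ℕ) : NPC.Poly (fun _ : α => n) := NPC.Poly.const n

theorem len_upoly {f : α → F3} (hf : NPC.Poly f) : UPoly (fun a => (f a).length) := UPoly.length hf

theorem cl_poly {f : α → F3} {k : α → ℕ} (hf : NPC.Poly f) (hk : NPC.Poly k) :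
    NPC.Poly (fun a => cl (f a) (k a)) := NPC.Poly.getD hf hk (NPC.Poly.const _)

theorem flag_poly {f : α → F3} {v k : α → ℕ} (hf : NPC.Poly f) (hv : NPC.Poly v)
    (hk : NPC.Poly k) : NPC.Poly (fun a => flag (f a) (v a) (k a)) := by
  have hc := cl_poly hf hk
  have hl : NPC.Poly (fun a => ((true, v a) : Lit ℕ)) := NPC.Poly.pair (NPC.Poly.const true) hv
  exact NPC.Poly.decide_or (NPC.Poly.decide_eq (NPC.Poly.fst hc) hl)
    (NPC.Poly.decide_or (NPC.Poly.decide_eq (NPC.Poly.fst (NPC.Poly.snd hc)) hl)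
      (NPC.Poly.decide_eq (NPC.Poly.snd (NPC.Poly.snd hc)) hl))

theorem crossTags_poly {f : α → F3} {k : α → ℕ} (hf : NPC.Poly f) (hk : NPC.Poly k) :
    NPC.Poly (fun a => crossTags (f a) (k a)) := by
  have hc := cl_poly hf hk
  have h1 := NPC.Poly.snd (NPC.Poly.fst hc)
  have h2 := NPC.Poly.snd (NPC.Poly.fst (NPC.Poly.snd hc))
  have h3 := NPC.Poly.snd (NPC.Poly.snd (NPC.Poly.snd hc))
  exact NPC.Poly.cons (NPC.Poly.pair h2 (NPC.Poly.pair h1 hk))
    (NPC.Poly.cons (NPC.Poly.pair h3 (NPC.Poly.pair h2 hk))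
      (NPC.Poly.cons (NPC.Poly.pair h1 (NPC.Poly.pair h3 hk)) (NPC.Poly.const [])))

theorem tagsOf_poly {f : α → F3} (hf : NPC.Poly f) : NPC.Poly (fun a => tagsOf (f a)) := by
  unfold tagsOf
  refine NPC.Poly.append ?_ ?_
  · refine NPC.Poly.map (F := fun (_ : α) (v : ℕ) => ((v, v, 0) : Tag))
      (UPoly.range (UPoly.mul (UPoly.const 3) (len_upoly hf))) ?_
    have hv : NPC.Poly (fun q : α × ℕ => q.2) := NPC.Poly.snd NPC.Poly.id
    exact NPC.Poly.pair hv (NPC.Poly.pair hv (NPC.Poly.const 0))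
  · refine NPC.Poly.flatMap (F := fun (a : α) (k : ℕ) => crossTags (f a) k)
      (UPoly.range (len_upoly hf)) ?_
    exact crossTags_poly (hf.comp (NPC.Poly.fst NPC.Poly.id)) (NPC.Poly.snd NPC.Poly.id)

theorem lenOf_upoly {f : α → F3} {t : α → Tag} (hf : NPC.Poly f) (ht : NPC.Poly t) :
    UPoly (fun a => lenOf (f a) (t a)) := by
  have h1 : UPoly (fun a => 2 * (f a).length) := UPoly.mul (UPoly.const 2) (len_upoly hf)
  have h2 : UPoly (fun _ : α => 3) := UPoly.const 3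
  refine UPoly.of_le (n := fun a => 2 * (f a).length + 3) ?_ (UPoly.add h1 h2) ?_
  · unfold lenOf
    exact NPC.Poly.ite (NPC.Poly.decide_eq (NPC.Poly.fst ht) (NPC.Poly.fst (NPC.Poly.snd ht)))
      h1.toPoly h2.toPoly
  · intro a
    unfold lenOf
    split_ifs <;> omega

theorem idx_poly {K v k : α → ℕ} (c : ℕ) (hK : NPC.Poly K) (hv : NPC.Poly v)
    (hk : NPC.Poly k) : NPC.Poly (fun a => idx (K a) (v a) (k a) c) :=
  NPC.Poly.add (NPC.Poly.add (c_poly 1) (NPC.Poly.mul (c_poly 4)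
    (NPC.Poly.add (NPC.Poly.mul hv hK) hk))) (c_poly c)

theorem reach_poly {f : α → F3} {t : α → Tag} {l : α → ℕ} (hf : NPC.Poly f)
    (ht : NPC.Poly t) (hl : NPC.Poly l) : NPC.Poly (fun a => reach (f a) (t a) (l a)) := by
  have hK : NPC.Poly (fun a => (f a).length) := NPC.Poly.length hf
  have t1 := NPC.Poly.fst ht
  have t2 := NPC.Poly.fst (NPC.Poly.snd ht)
  have t3 := NPC.Poly.snd (NPC.Poly.snd ht)
  have l2 : NPC.Poly (fun a => l a / 2) := NPC.Poly.div hl (c_poly 2)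
  have m2 : NPC.Poly (fun a => decide (l a % 2 = 0)) :=
    NPC.Poly.decide_eq (NPC.Poly.mod hl (c_poly 2)) (c_poly 0)
  have hb : NPC.Poly (fun a => (decide (l a % 2 = 0) != flag (f a) (t a).1 (l a / 2))) :=
    NPC.Poly.xor m2 (flag_poly hf t1 l2)
  unfold reach
  exact NPC.Poly.ite (NPC.Poly.decide_eq t1 t2)
    (NPC.Poly.ite (NPC.Poly.decide_bool hb)
      (NPC.Poly.pair (idx_poly 1 hK t1 l2) (idx_poly 1 hK t1 l2))
      (NPC.Poly.pair (idx_poly 3 hK t1 l2) (idx_poly 3 hK t1 l2)))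
    (NPC.Poly.ite (NPC.Poly.decide_eq hl (c_poly 0))
      (NPC.Poly.pair (idx_poly 2 hK t1 t3) (NPC.Poly.succ (idx_poly 3 hK t2 t3)))
      (NPC.Poly.ite (NPC.Poly.decide_eq hl (c_poly 1))
        (NPC.Poly.pair (idx_poly 2 hK t1 t3) (idx_poly 0 hK t2 t3))
        (NPC.Poly.pair (idx_poly 1 hK t1 t3) (idx_poly 1 hK t2 t3))))

theorem numOf_upoly {f : α → F3} (hf : NPC.Poly f) : UPoly (fun a => numOf (f a)) := by
  unfold numOf
  exact UPoly.add (UPoly.mul (UPoly.const 4) (UPoly.mul (UPoly.mul (UPoly.const 3) (len_upoly hf))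
    (len_upoly hf))) (UPoly.const 2)

theorem vl_poly {f : α → F3} (hf : NPC.Poly f) : NPC.Poly (fun a => vl (f a)) := by
  unfold vl verts
  have z : ∀ {β : Type} [TEnc β], NPC.Poly (fun _ : β => ((0, 0, 0) : Tag)) := NPC.Poly.const _
  refine NPC.Poly.append ?_ (NPC.Poly.cons (NPC.Poly.const _) ?_)
  · refine NPC.Poly.flatMap (F := fun (_ : α) (i : ℕ) => [((0, (0, 0, 0), i) : VD),
      (1, (0, 0, 0), i), (2, (0, 0, 0), i), (3, (0, 0, 0), i)]) (numOf_upoly hf).range ?_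
    have hi : NPC.Poly (fun q : α × ℕ => q.2) := NPC.Poly.snd NPC.Poly.id
    have hm : ∀ k : ℕ, NPC.Poly (fun q : α × ℕ => ((k, (0, 0, 0), q.2) : VD)) := fun k =>
      NPC.Poly.pair (NPC.Poly.const k) (NPC.Poly.pair z hi)
    exact NPC.Poly.cons (hm 0) (NPC.Poly.cons (hm 1) (NPC.Poly.cons (hm 2)
      (NPC.Poly.cons (hm 3) (NPC.Poly.const []))))
  · refine NPC.Poly.flatMap (F := fun (a : α) (t : Tag) =>
      (List.range (lenOf (f a) t)).flatMap (fun l => [((5, t, l) : VD), (6, t, l), (7, t, l)]))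
      (tagsOf_poly hf) ?_
    refine NPC.Poly.flatMap (F := fun (q : α × Tag) (l : ℕ) =>
      [((5, q.2, l) : VD), (6, q.2, l), (7, q.2, l)])
      (lenOf_upoly (hf.comp (NPC.Poly.fst NPC.Poly.id)) (NPC.Poly.snd NPC.Poly.id)).range ?_
    have ht : NPC.Poly (fun q : (α × Tag) × ℕ => q.1.2) :=
      NPC.Poly.snd (NPC.Poly.fst NPC.Poly.id)
    have hl : NPC.Poly (fun q : (α × Tag) × ℕ => q.2) := NPC.Poly.snd NPC.Poly.id
    have hm : ∀ k : ℕ, NPC.Poly (fun q : (α × Tag) × ℕ => ((k, q.1.2, q.2) : VD)) := fun k =>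
      NPC.Poly.pair (NPC.Poly.const k) (NPC.Poly.pair ht hl)
    exact NPC.Poly.cons (hm 5) (NPC.Poly.cons (hm 6) (NPC.Poly.cons (hm 7) (NPC.Poly.const [])))

theorem ab_poly {f : α → F3} {u v : α → VD} (hf : NPC.Poly f) (hu : NPC.Poly u)
    (hv : NPC.Poly v) : NPC.Poly (fun a => ab (f a) (u a) (v a)) := by
  have u1 := NPC.Poly.fst hu
  have u2 := NPC.Poly.fst (NPC.Poly.snd hu)
  have u3 := NPC.Poly.snd (NPC.Poly.snd hu)
  have v1 := NPC.Poly.fst hv
  have v2 := NPC.Poly.fst (NPC.Poly.snd hv)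
  have v3 := NPC.Poly.snd (NPC.Poly.snd hv)
  have hr := reach_poly hf u2 u3
  have r1 := NPC.Poly.fst hr
  have r2 := NPC.Poly.snd hr
  have e : ∀ {m : α → ℕ} (_ : NPC.Poly m) (n : ℕ), NPC.Poly (fun a => decide (m a = n)) :=
    fun hm n => NPC.Poly.decide_eq hm (c_poly n)
  have g : ∀ (n : ℕ), NPC.Poly (fun a => decide (n ≤ (v a).1)) :=
    fun n => NPC.Poly.decide_le (c_poly n) v1
  have te : NPC.Poly (fun a => decide ((v a).2.1 = (u a).2.1)) := NPC.Poly.decide_eq v2 u2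
  have ie : NPC.Poly (fun a => decide ((v a).2.2 = (u a).2.2)) := NPC.Poly.decide_eq v3 u3
  have ie' : NPC.Poly (fun a => decide ((v a).2.2 = (u a).2.2 + 1)) :=
    NPC.Poly.decide_eq v3 (NPC.Poly.succ u3)
  have il : NPC.Poly (fun a => decide ((v a).2.2 ≤ (u a).2.2)) := NPC.Poly.decide_le v3 u3
  have m56 : NPC.Poly (fun a => decide ((v a).1 = 5 ∨ (v a).1 = 6)) :=
    NPC.Poly.decide_or (e v1 5) (e v1 6)
  refine (NPC.Poly.decide_or
    (NPC.Poly.decide_and (e u1 0) (NPC.Poly.decide_and (e v1 0) ie))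
    (NPC.Poly.decide_or
    (NPC.Poly.decide_and (e u1 1) (NPC.Poly.decide_and (e v1 1) ie))
    (NPC.Poly.decide_or
    (NPC.Poly.decide_and (e u1 2) (NPC.Poly.decide_or (NPC.Poly.decide_and (e v1 0) il)
      (NPC.Poly.decide_or (e v1 2) (g 4))))
    (NPC.Poly.decide_or
    (NPC.Poly.decide_and (e u1 3) (NPC.Poly.decide_or (NPC.Poly.decide_and (e v1 1) il) (g 3)))
    (NPC.Poly.decide_or
    (NPC.Poly.decide_and (e u1 4) (e v1 4))
    (NPC.Poly.decide_or
    (NPC.Poly.decide_and (e u1 5) (NPC.Poly.decide_or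
      (NPC.Poly.decide_and (e v1 0) (NPC.Poly.decide_lt v3 r1))
      (NPC.Poly.decide_or (NPC.Poly.decide_and (e v1 1) (NPC.Poly.decide_lt v3 r2)) (g 2))))
    (NPC.Poly.decide_or
    (NPC.Poly.decide_and (e u1 6) (NPC.Poly.decide_and m56 (NPC.Poly.decide_and te ie)))
    (NPC.Poly.decide_and (e u1 7) (NPC.Poly.decide_and te (NPC.Poly.decide_or
      (NPC.Poly.decide_and m56 (NPC.Poly.decide_or ie ie'))
      (NPC.Poly.decide_and (e v1 7) ie))))))))))).congr ?_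
  intro a
  unfold ab
  rw [decide_eq_decide]
  exact Iff.rfl

end

theorem red_poly : NPC.Poly red := by
  unfold red mat
  refine NPC.Poly.map (F := fun (φ : F3) (u : VD) => (vl φ).map (fun v => ab φ u v))
    (vl_poly NPC.Poly.id) ?_
  refine NPC.Poly.map (F := fun (q : F3 × VD) (v : VD) => ab q.1 q.2 v)
    (vl_poly (NPC.Poly.fst NPC.Poly.id)) ?_
  exact ab_poly (NPC.Poly.fst (NPC.Poly.fst NPC.Poly.id)) (NPC.Poly.snd (NPC.Poly.fst NPC.Poly.id))
    (NPC.Poly.snd NPC.Poly.id)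

theorem redT_poly : NPC.Poly redT := by
  unfold redT mat
  refine NPC.Poly.map (F := fun (φ : F3) (u : VD) => (vl φ).map (fun v => ab φ v u))
    (vl_poly NPC.Poly.id) ?_
  refine NPC.Poly.map (F := fun (q : F3 × VD) (v : VD) => ab q.1 v q.2)
    (vl_poly (NPC.Poly.fst NPC.Poly.id)) ?_
  exact ab_poly (NPC.Poly.fst (NPC.Poly.fst NPC.Poly.id)) (NPC.Poly.snd NPC.Poly.id)
    (NPC.Poly.snd (NPC.Poly.fst NPC.Poly.id))

/-- Every class of digraphs between (3ai) and (3ci) is `NP`-hard. -/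
theorem hard_of_between {C : Dig → Prop}
    (h1 : ∀ D, InClass Len.arbitrary Core.point Tolerance.tolerance D → C D)
    (h2 : ∀ D, C D → InClass Len.arbitrary Core.arbitrary Tolerance.tolerance D) :
    NPHardP C := by
  refine (HardPr.trans (Pr' := fun _ => True) hardPr_SAT3b red_poly (fun _ _ => trivial)
    (fun φ hφ => ?_)).toHardI.toNPHardP
  exact ⟨fun h => h1 _ (red_sat hφ.1 hφ.2.1 hφ.2.2 h),
    fun h => sat_red hφ.1 hφ.2.1 hφ.2.2 (h2 _ h)⟩

/-- Every class of digraphs between (1ci) and (3ci) is `NP`-hard. -/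
theorem hard_of_between' {C : Dig → Prop}
    (h1 : ∀ D, InClass Len.unit Core.arbitrary Tolerance.tolerance D → C D)
    (h2 : ∀ D, C D → InClass Len.arbitrary Core.arbitrary Tolerance.tolerance D) :
    NPHardP C := by
  refine (HardPr.trans (Pr' := fun _ => True) hardPr_SAT3b redT_poly (fun _ _ => trivial)
    (fun φ hφ => ?_)).toHardI.toNPHardP
  exact ⟨fun h => h1 _ (redT_sat hφ.1 hφ.2.1 hφ.2.2 h),
    fun h => sat_redT hφ.1 hφ.2.1 hφ.2.2 (h2 _ h)⟩

end Pool.Agent.W983.Tol
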